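import Pool.Agent.H56.AS.Defs

/-! Composition and reversal of continuations. -/

namespace Pool.Agent.H56.AS

open Set Filter Topology

variable {X : Type*} [TopologicalSpace X]

theorem Cont.facts {A : AffineSurface X} {v : ℂ} {e : OpenPartialHomeomorph X ℂ} {p : X}
    {e' : OpenPartialHomeomorph X ℂ} {q : X} {l : ℝ} (h : Cont A v e p e' q l) :
    e ∈ A.atlas ∧ p ∈ e.source ∧ e' ∈ A.atlas ∧ q ∈ e'.source ∧ 0 < l := by
  induction h with
  | refl he hp => exact ⟨he, hp, he, hp, one_pos⟩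
  | move e' q l r t h hr ht hqr hs ih => exact ⟨ih.1, ih.2.1, ih.2.2.1, hr, ih.2.2.2.2⟩
  | change e' q l e'' a b h he hq ha hab ih =>
    exact ⟨ih.1, ih.2.1, he, hq, mul_pos ha ih.2.2.2.2⟩

theorem Cont.comp {A : AffineSurface X} {v : ℂ} {e : OpenPartialHomeomorph X ℂ} {p : X}
    {e' : OpenPartialHomeomorph X ℂ} {q : X} {l : ℝ} {e'' : OpenPartialHomeomorph X ℂ} {r : X}
    {m : ℝ} (h : Cont A v e p e' q l) (h' : Cont A v e' q e'' r m) :
    Cont A v e p e'' r (m * l) := by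
  induction h' with
  | refl he hq => rwa [one_mul]
  | move e2 r m s t h' hs ht hqr hseg ih =>
    exact Cont.move e p e2 r _ s t ih hs ht hqr hseg
  | change e2 r m e3 a b h' he hq ha hab ih =>
    rw [mul_assoc]
    exact Cont.change e p e2 r _ e3 a b ih he hq ha hab

theorem Cont.reverse {A : AffineSurface X} {v : ℂ} {e : OpenPartialHomeomorph X ℂ} {p : X}
    {e' : OpenPartialHomeomorph X ℂ} {q : X} {l : ℝ} (h : Cont A v e p e' q l) :
    Cont A (-v) e' q e p l⁻¹ := by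
  induction h with
  | refl he hp =>
    rw [inv_one]
    exact Cont.refl e p he hp
  | move e' q l r t h hr ht hqr hs ih =>
    obtain ⟨_, _, he', hq, _⟩ := h.facts
    have h1 : Cont A (-v) e' r e' q 1 := by
      refine Cont.move e' r e' r 1 q t (Cont.refl e' r he' hr) hq ht ?_ ?_
      · rw [hqr]; ring
      · rw [segment_symm]; exact hs
    have h2 := h1.comp ih
    rwa [mul_one] at h2
  | change e' q l e'' a b h he hq ha hab ih =>
    obtain ⟨_, _, he', hq', _⟩ := h.facts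
    have ha' : (a : ℂ) ≠ 0 := by exact_mod_cast ha.ne'
    have h1 : Cont A (-v) e'' q e' q (a⁻¹ * 1) := by
      refine Cont.change e'' q e'' q 1 e' a⁻¹ (-((a : ℂ)⁻¹ * b)) (Cont.refl e'' q he hq) he' hq'
        (inv_pos.2 ha) ?_
      filter_upwards [hab] with x hx
      rw [hx]
      push_cast
      field_simp
      ring
    have h2 := h1.comp ih
    have h3 : l⁻¹ * (a⁻¹ * 1) = (a * l)⁻¹ := by
      rw [mul_one, mul_inv, mul_comm]
    rwa [h3] at h2

/-- change of the first chart -/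
theorem Cont.start {A : AffineSurface X} {v : ℂ} {e : OpenPartialHomeomorph X ℂ} {p : X}
    {e' : OpenPartialHomeomorph X ℂ} {q : X} {l : ℝ} (h : Cont A v e p e' q l)
    {e1 : OpenPartialHomeomorph X ℂ} (he : e1 ∈ A.atlas) (hp : p ∈ e1.source) :
    ∃ m, Cont A v e1 p e' q m := by
  obtain ⟨he0, hp0, _, _, _⟩ := h.facts
  obtain ⟨a, ha, b, hab⟩ := A.trans e1 he e he0 p hp hp0
  exact ⟨_, (Cont.change e1 p e1 p 1 e a b (Cont.refl e1 p he hp) he0 hp0 ha hab).comp h⟩

/-- change of the last chart -/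
theorem Cont.finish {A : AffineSurface X} {v : ℂ} {e : OpenPartialHomeomorph X ℂ} {p : X}
    {e' : OpenPartialHomeomorph X ℂ} {q : X} {l : ℝ} (h : Cont A v e p e' q l)
    {e1 : OpenPartialHomeomorph X ℂ} (he : e1 ∈ A.atlas) (hq : q ∈ e1.source) :
    ∃ m, Cont A v e p e1 q m := by
  obtain ⟨_, _, he0, hq0, _⟩ := h.facts
  obtain ⟨a, ha, b, hab⟩ := A.trans e' he0 e1 he q hq0 hq
  exact ⟨_, Cont.change e p e' q l e1 a b h he hq ha hab⟩

theorem Reach.refl {A : AffineSurface X} {v : ℂ} {p : X} (hp : p ∉ A.sing) : Reach A v p p := by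
  obtain ⟨e, he, hpe⟩ := A.cover p hp
  exact ⟨e, e, 1, Cont.refl e p he hpe⟩

theorem Reach.trans {A : AffineSurface X} {v : ℂ} {p q r : X} (h : Reach A v p q)
    (h' : Reach A v q r) : Reach A v p r := by
  obtain ⟨e, e', l, hc⟩ := h
  obtain ⟨f, f', m, hc'⟩ := h'
  obtain ⟨hf, hq, _, _, _⟩ := hc'.facts
  obtain ⟨m', h1⟩ := hc.finish hf hq
  exact ⟨e, f', _, h1.comp hc'⟩

theorem Reach.left {A : AffineSurface X} {v : ℂ} {p q : X} (h : Reach A v p q) : p ∉ A.sing := by
  obtain ⟨e, e', l, hc⟩ := h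
  obtain ⟨he, hp, _, _, _⟩ := hc.facts
  exact A.regular e he p hp

theorem Reach.right {A : AffineSurface X} {v : ℂ} {p q : X} (h : Reach A v p q) :
    q ∉ A.sing := by
  obtain ⟨e, e', l, hc⟩ := h
  obtain ⟨_, _, he, hp, _⟩ := hc.facts
  exact A.regular e' he q hp

theorem reach_neg {A : AffineSurface X} {v : ℂ} {p q : X} :
    Reach A (-v) p q ↔ Reach A v q p := by
  constructor
  · rintro ⟨e, e', l, hc⟩
    have h := hc.reverse
    rw [neg_neg] at h
    exact ⟨e', e, _, h⟩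
  · rintro ⟨e, e', l, hc⟩
    exact ⟨e', e, _, hc.reverse⟩

theorem closedHyp_neg {A : AffineSurface X} {v : ℂ} {y : X} (h : ClosedHyp A (-v) y) :
    ClosedHyp A v y := by
  obtain ⟨e, l, hl, hc⟩ := h
  have h1 := hc.reverse
  rw [neg_neg] at h1
  exact ⟨e, l⁻¹, fun h2 => hl (inv_eq_one.1 h2), h1⟩

theorem closedLeaf_neg {A : AffineSurface X} {v : ℂ} {y : X} :
    closedLeaf A (-v) y = closedLeaf A v y := by
  ext q
  simp only [closedLeaf, mem_ofPred_eq, reach_neg]
  exact and_comm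

/-- one straight segment -/
theorem reach_segment {A : AffineSurface X} {v : ℂ} {e : OpenPartialHomeomorph X ℂ}
    (he : e ∈ A.atlas) {p q : X} (hp : p ∈ e.source) (hq : q ∈ e.source) {t : ℝ} (ht : 0 ≤ t)
    (h : e q = e p + (t : ℂ) * v) (hs : segment ℝ (e p) (e q) ⊆ e.target) : Reach A v p q := by
  rcases ht.eq_or_lt with h0 | h0
  · have h1 : e q = e p := by rw [h, ← h0]; simp
    have h2 : q = p := e.injOn hq hp h1
    rw [h2]
    exact Reach.refl (A.regular e he p hp)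
  · exact ⟨e, e, 1, Cont.move e p e p 1 q t (Cont.refl e p he hp) hq h0 h hs⟩

end Pool.Agent.H56.AS
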