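import Pool.Agent.H56.AS.Path

/-! Motion near a cone point. -/

namespace Pool.Agent.H56.AS

open Set Filter Topology

variable {X : Type*} [TopologicalSpace X]

private theorem local_lin {A : AffineSurface X} {v : ℂ} {s : X} {k : ℕ}
    {c : OpenPartialHomeomorph X ℂ}
    (hreg : ∀ q ∈ c.source, q ≠ s → q ∉ A.sing)
    (hrel : ∀ e ∈ A.atlas, ∀ p, p ∈ c.source → p ∈ e.source →
      ∃ a : ℝ, 0 < a ∧ ∃ b : ℂ, ∀ᶠ q in 𝓝 p, e q = (a : ℂ) * (c q) ^ k + b)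
    {γ : ℝ → X} {I : Set ℝ} {t : ℝ} (hcont : ContinuousWithinAt γ I t)
    (hsrc : γ t ∈ c.source) (hne : γ t ≠ s) {η : ℂ} {α₀ : ℝ} (hα : 0 < α₀)
    (hlin : ∀ x ∈ I, (c (γ x)) ^ k = η + ((α₀ * x : ℝ) : ℂ) * v) :
    ∃ e ∈ A.atlas, γ t ∈ e.source ∧ ∃ α : ℝ, 0 < α ∧ ∃ β : ℂ,
      ∀ᶠ x in 𝓝[I] t, e (γ x) = β + ((α * x : ℝ) : ℂ) * v := by
  obtain ⟨e, he, hte⟩ := A.cover _ (hreg _ hsrc hne)
  obtain ⟨a, ha, b, hab⟩ := hrel e he _ hsrc hte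
  refine ⟨e, he, hte, a * α₀, mul_pos ha hα, (a : ℂ) * η + b, ?_⟩
  filter_upwards [hcont.tendsto.eventually hab, self_mem_nhdsWithin] with x hx hxI
  rw [hx, hlin x hxI]
  push_cast
  ring

/-- away from the incoming prongs one can move on by `T` -/
theorem cone_move {A : AffineSurface X} {v : ℂ} (hv : ‖v‖ = 1) {s : X} {k : ℕ} (hk : 2 ≤ k)
    {c : OpenPartialHomeomorph X ℂ} (hs : s ∈ c.source) (hcs : c s = 0)
    (hreg : ∀ q ∈ c.source, q ≠ s → q ∉ A.sing)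
    (hrel : ∀ e ∈ A.atlas, ∀ p, p ∈ c.source → p ∈ e.source →
      ∃ a : ℝ, 0 < a ∧ ∃ b : ℂ, ∀ᶠ q in 𝓝 p, e q = (a : ℂ) * (c q) ^ k + b)
    {ρ : ℝ} (hρ : 0 < ρ) (hball : Metric.ball (0 : ℂ) ρ ⊆ c.target)
    {q : X} (hq : q ∈ c.source) (hqs : q ≠ s) {T : ℝ} (hT : 0 ≤ T)
    (hqT : ‖c q‖ ^ k + T < ρ ^ k) (hpr : ¬ ∃ r : ℝ, 0 < r ∧ (c q) ^ k = -((r : ℂ) * v)) :
    ∃ q' ∈ c.source, Reach A v q q' ∧ (c q') ^ k = (c q) ^ k + (T : ℂ) * v := by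
  have hk0 : k ≠ 0 := by omega
  obtain ⟨ζ, hζ⟩ : ∃ ζ, ζ = c q := ⟨_, rfl⟩
  have hζ0 : ζ ≠ 0 := by
    intro h0
    exact hqs (c.injOn hq hs (by rw [← hζ, h0, hcs]))
  rw [← hζ] at hqT hpr ⊢
  have hη0 : ζ ^ k ≠ 0 := pow_ne_zero _ hζ0
  obtain ⟨w, hw⟩ : ∃ w, w = v / ζ ^ k := ⟨_, rfl⟩
  have hηw : ζ ^ k * w = v := by rw [hw]; field_simp
  have hslit : ∀ t : ℝ, 0 ≤ t → 1 + (t : ℂ) * w ∈ Complex.slitPlane := by
    intro t ht
    by_contra hno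
    rw [Complex.mem_slitPlane_iff, not_or, not_lt, not_not] at hno
    obtain ⟨h1, h2⟩ := hno
    have h3 : 1 + (t : ℂ) * w = (((1 + (t : ℂ) * w).re : ℝ) : ℂ) := Complex.ext (by simp) (by rw [h2]; simp)
    obtain ⟨x, hx⟩ : ∃ x : ℝ, x = (1 + (t : ℂ) * w).re := ⟨_, rfl⟩
    rw [← hx] at h1 h3
    have h4 : ζ ^ k * (1 - (x : ℂ)) = -((t : ℂ) * v) := by
      have h5 : (t : ℂ) * w = (x : ℂ) - 1 := by rw [← h3]; ring
      calc ζ ^ k * (1 - (x : ℂ)) = - (ζ ^ k * ((t : ℂ) * w)) := by rw [h5]; ring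
        _ = -((t : ℂ) * v) := by rw [← hηw]; ring
    have h6 : (0 : ℝ) < 1 - x := by linarith
    have h7 : (1 - (x : ℂ)) ≠ 0 := by
      have h8 : ((1 - x : ℝ) : ℂ) ≠ 0 := Complex.ofReal_ne_zero.2 h6.ne'
      simpa using h8
    have ht0 : 0 < t := by
      rcases ht.eq_or_lt with h9 | h9
      · exfalso
        rw [← h9] at h4
        have h10 : ζ ^ k * (1 - (x : ℂ)) = 0 := by rw [h4]; simp
        exact (mul_ne_zero hη0 h7) h10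
      · exact h9
    apply hpr
    refine ⟨t / (1 - x), div_pos ht0 h6, ?_⟩
    have h11 : ζ ^ k = -((t : ℂ) * v) / (1 - (x : ℂ)) := by
      rw [← h4]
      field_simp
    rw [h11]
    push_cast
    ring
  obtain ⟨z, hz⟩ : ∃ z : ℝ → ℂ, z = fun t : ℝ => ζ * (1 + (t : ℂ) * w) ^ ((k : ℂ)⁻¹) := ⟨_, rfl⟩
  have hzk : ∀ t : ℝ, (z t) ^ k = ζ ^ k + (t : ℂ) * v := by
    intro t
    rw [hz]
    show (ζ * (1 + (t : ℂ) * w) ^ ((k : ℂ)⁻¹)) ^ k = _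
    rw [mul_pow, Complex.cpow_nat_inv_pow _ hk0, ← hηw]
    ring
  have hz0 : ∀ t : ℝ, 0 ≤ t → z t ≠ 0 := by
    intro t ht h0
    have h1 := hzk t
    rw [h0, zero_pow hk0] at h1
    have h2 : ζ ^ k * (1 + (t : ℂ) * w) = 0 := by
      rw [h1, ← hηw]
      ring
    exact mul_ne_zero hη0 (Complex.slitPlane_ne_zero (hslit t ht)) h2
  have hzb : ∀ t ∈ Icc (0 : ℝ) T, z t ∈ c.target := by
    intro t ht
    apply hball
    rw [Metric.mem_ball, dist_zero_right]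
    apply lt_of_pow_lt_pow_left₀ k hρ.le
    rw [← norm_pow, hzk]
    calc ‖ζ ^ k + (t : ℂ) * v‖ ≤ ‖ζ ^ k‖ + ‖(t : ℂ) * v‖ := norm_add_le _ _
      _ = ‖ζ‖ ^ k + t := by
        rw [norm_pow, norm_mul, hv, mul_one, Complex.norm_real, Real.norm_of_nonneg ht.1]
      _ ≤ ‖ζ‖ ^ k + T := by linarith [ht.2]
      _ < ρ ^ k := hqT
  have hzc : ContinuousOn z (Icc 0 T) := by
    rw [hz]
    apply ContinuousOn.mul continuousOn_const
    apply ContinuousOn.cpow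
    · fun_prop
    · exact continuousOn_const
    · intro t ht
      exact hslit t ht.1
  have hγc : ContinuousOn (fun t => c.symm (z t)) (Icc 0 T) :=
    c.continuousOn_symm.comp hzc hzb
  have hcγ : ∀ t ∈ Icc (0 : ℝ) T, c (c.symm (z t)) = z t := fun t ht => c.right_inv (hzb t ht)
  have hreach := path_reach (A := A) (v := v) (γ := fun t => c.symm (z t)) hT hγc (by
    intro t ht
    apply local_lin hreg hrel (hγc t ht) (c.map_target (hzb t ht)) (η := ζ ^ k) (α₀ := 1)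
    · intro h0
      have h1 := congrArg c h0
      rw [hcγ t ht, hcs] at h1
      exact hz0 t ht.1 h1
    · exact one_pos
    · intro x hx
      rw [hcγ x hx, hzk, one_mul])
  have hγ0 : c.symm (z 0) = q := by
    have h1 : z 0 = c q := by
      rw [hz, ← hζ]
      simp
    rw [h1, c.left_inv hq]
  refine ⟨c.symm (z T), c.map_target (hzb T ⟨hT, le_rfl⟩), ?_, ?_⟩
  · rw [← hγ0]
    exact hreach
  · rw [hcγ T ⟨hT, le_rfl⟩, hzk]

/-- on an incoming prong the leaf ends at the cone point -/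
theorem cone_end {A : AffineSurface X} {v : ℂ} (hv : ‖v‖ = 1) {s : X} (hsing : s ∈ A.sing)
    {k : ℕ} (hk : 2 ≤ k)
    {c : OpenPartialHomeomorph X ℂ} (hs : s ∈ c.source) (hcs : c s = 0)
    (hreg : ∀ q ∈ c.source, q ≠ s → q ∉ A.sing)
    (hrel : ∀ e ∈ A.atlas, ∀ p, p ∈ c.source → p ∈ e.source →
      ∃ a : ℝ, 0 < a ∧ ∃ b : ℂ, ∀ᶠ q in 𝓝 p, e q = (a : ℂ) * (c q) ^ k + b)
    {ρ : ℝ} (hρ : 0 < ρ) (hball : Metric.ball (0 : ℂ) ρ ⊆ c.target)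
    {p q : X} (hpq : Reach A v p q) (hq : q ∈ c.source) (hqρ : ‖c q‖ < ρ) {r : ℝ} (hr : 0 < r)
    (hpr : (c q) ^ k = -((r : ℂ) * v)) :
    FwdSing A v p := by
  have hk0 : k ≠ 0 := by omega
  obtain ⟨ζ, hζ⟩ : ∃ ζ, ζ = c q := ⟨_, rfl⟩
  rw [← hζ] at hqρ hpr
  have hv0 : v ≠ 0 := by
    intro h0
    rw [h0, norm_zero] at hv
    exact zero_ne_one hv
  have hη0 : ζ ^ k ≠ 0 := by
    rw [hpr]
    exact neg_ne_zero.2 (mul_ne_zero (Complex.ofReal_ne_zero.2 hr.ne') hv0)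
  have hζ0 : ζ ≠ 0 := by
    intro h0
    rw [h0, zero_pow hk0] at hη0
    exact hη0 rfl
  have hkp : (0 : ℝ) < 1 / (k : ℝ) := by positivity
  obtain ⟨z, hz⟩ : ∃ z : ℝ → ℂ, z = fun t : ℝ => ζ * (((1 - t) ^ (1 / (k : ℝ)) : ℝ) : ℂ) := ⟨_, rfl⟩
  have hzk : ∀ t : ℝ, t ≤ 1 → (z t) ^ k = -((r : ℂ) * v) + ((r * t : ℝ) : ℂ) * v := by
    intro t ht
    rw [hz]
    show (ζ * (((1 - t) ^ (1 / (k : ℝ)) : ℝ) : ℂ)) ^ k = _
    have h1 : ((1 - t) ^ (1 / (k : ℝ))) ^ k = 1 - t := by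
      rw [one_div]
      exact Real.rpow_inv_natCast_pow (by linarith) hk0
    rw [mul_pow, ← Complex.ofReal_pow, h1, hpr]
    push_cast
    ring
  have hz0 : ∀ t : ℝ, t < 1 → z t ≠ 0 := by
    intro t ht
    rw [hz]
    exact mul_ne_zero hζ0 (Complex.ofReal_ne_zero.2 (Real.rpow_pos_of_pos (by linarith) _).ne')
  have hzb : ∀ t ∈ Icc (0 : ℝ) 1, z t ∈ c.target := by
    intro t ht
    apply hball
    rw [Metric.mem_ball, dist_zero_right]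
    refine lt_of_le_of_lt ?_ hqρ
    rw [hz]
    show ‖ζ * (((1 - t) ^ (1 / (k : ℝ)) : ℝ) : ℂ)‖ ≤ ‖ζ‖
    rw [norm_mul, Complex.norm_real, Real.norm_of_nonneg (Real.rpow_nonneg (by linarith [ht.2]) _)]
    have h1 : (1 - t) ^ (1 / (k : ℝ)) ≤ 1 := Real.rpow_le_one (by linarith [ht.2]) (by linarith [ht.1]) hkp.le
    calc ‖ζ‖ * (1 - t) ^ (1 / (k : ℝ)) ≤ ‖ζ‖ * 1 := mul_le_mul_of_nonneg_left h1 (norm_nonneg _)
      _ = ‖ζ‖ := mul_one _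
  have hzc : Continuous z := by
    rw [hz]
    apply Continuous.mul continuous_const
    apply Complex.continuous_ofReal.comp
    exact Continuous.rpow_const (by fun_prop) (fun _ => Or.inr hkp.le)
  have hγc : ContinuousOn (fun t => c.symm (z t)) (Icc 0 1) :=
    c.continuousOn_symm.comp hzc.continuousOn hzb
  have hcγ : ∀ t ∈ Icc (0 : ℝ) 1, c (c.symm (z t)) = z t := fun t ht => c.right_inv (hzb t ht)
  have hγs : ∀ t ∈ Ico (0 : ℝ) 1, c.symm (z t) ≠ s := by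
    intro t ht h0
    have h1 := congrArg c h0
    rw [hcγ t ⟨ht.1, ht.2.le⟩, hcs] at h1
    exact hz0 t ht.2 h1
  refine ⟨q, s, fun t => c.symm (z t), hpq, hsing, hγc, ?_, ?_, ?_, ?_⟩
  · show c.symm (z 0) = q
    have h1 : z 0 = c q := by
      rw [hz, ← hζ]
      simp
    rw [h1, c.left_inv hq]
  · show c.symm (z 1) = s
    have h1 : z 1 = c s := by
      rw [hz, hcs]
      show ζ * (((1 - 1) ^ (1 / (k : ℝ)) : ℝ) : ℂ) = 0
      rw [sub_self, Real.zero_rpow hkp.ne']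
      simp
    rw [h1, c.left_inv hs]
  · intro t ht
    exact hreg _ (c.map_target (hzb t ⟨ht.1, ht.2.le⟩)) (hγs t ht)
  · intro t t' ht htt ht'
    have hsub : Icc t t' ⊆ Icc (0 : ℝ) 1 := Icc_subset_Icc ht ht'.le
    apply path_reach (A := A) (v := v) (γ := fun t => c.symm (z t)) htt.le (hγc.mono hsub)
    intro x hx
    apply local_lin hreg hrel ((hγc.mono hsub) x hx) (c.map_target (hzb x (hsub hx)))
      (hγs x ⟨(hsub hx).1, lt_of_le_of_lt hx.2 ht'⟩) (η := -((r : ℂ) * v)) (α₀ := r) hr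
    intro y hy
    rw [hcγ y (hsub hy), hzk y (hsub hy).2]

end Pool.Agent.H56.AS
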