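import Pool.Agent.H56.AS.Basic

/-! There are only countably many directions of saddle connections. -/

namespace Pool.Agent.H56.AS

open Set Filter Topology

variable {X : Type*} [TopologicalSpace X]

/-- local developing data -/
structure CData (A : AffineSurface X) (R : RadData A) where
  c : OpenPartialHomeomorph X ℂ
  Z : X → ℂ
  cont : ContinuousOn Z c.source
  cmp : ∀ e ∈ A.atlas, ∀ p, p ∈ c.source → p ∈ e.source →
    ∃ a : ℝ, 0 < a ∧ ∀ᶠ q in 𝓝 p, e q - R.o e = (a : ℂ) * Z q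
  inj : ∀ s ∈ c.source, s ∈ A.sing → Z s ≠ 0 ∧ ∀ x ∈ c.source, Z x = Z s → x = s

theorem CData.exists_at (A : AffineSurface X) (R : RadData A) (x : X) :
    ∃ D : CData A R, x ∈ D.c.source := by
  by_cases hx : x ∈ A.sing
  · obtain ⟨k, hk, c, hxc, hc0, hcs, z0, hz0, hc⟩ := R.cn x hx
    have hk0 : k ≠ 0 := by omega
    refine ⟨⟨c, fun q => z0 + (c q) ^ k, ?_, ?_, ?_⟩, hxc⟩
    · exact continuousOn_const.add (c.continuousOn.pow k)
    · exact hc
    · intro s hs hss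
      have hsx : s = x := by
        by_contra hne
        exact hcs s hs hne hss
      subst hsx
      refine ⟨?_, ?_⟩
      · simp [hc0, hk0, hz0]
      · intro y hy hyz
        have h1 : (c y) ^ k = 0 := by simpa [hc0, hk0] using hyz
        have h2 : c y = 0 := pow_eq_zero_iff hk0 |>.mp h1
        exact c.injOn hy hs (by rw [h2, hc0])
  · obtain ⟨e, he, hxe⟩ := A.cover x hx
    refine ⟨⟨e, fun q => e q - R.o e, ?_, ?_, ?_⟩, hxe⟩
    · exact e.continuousOn.sub continuousOn_const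
    · intro e' he' p hp hp'
      exact R.tr e he e' he' p hp hp'
    · intro s hs hss
      exact absurd hss (A.regular e he s hs)

theorem CData.ne_zero {A : AffineSurface X} {R : RadData A} (D : CData A R) {p : X}
    (hp : p ∈ D.c.source) (hps : p ∉ A.sing) : D.Z p ≠ 0 := by
  obtain ⟨e, he, hpe⟩ := A.cover p hps
  obtain ⟨a, ha, h⟩ := D.cmp e he p hp hpe
  have h1 := h.self_of_nhds
  have h2 := R.ne e he p hpe
  intro h0
  rw [h0, mul_zero] at h1
  exact h2 h1

/-- the ratios of two developing maps -/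
def rat {A : AffineSurface X} {R : RadData A} (D D' : CData A R) : Set ℝ :=
  {a | 0 < a ∧ ∃ p, p ∉ A.sing ∧ p ∈ D.c.source ∧ p ∈ D'.c.source ∧
    ∀ᶠ q in 𝓝 p, D'.Z q = (a : ℂ) * D.Z q}

theorem rat_countable [T2Space X] [SecondCountableTopology X] {A : AffineSurface X}
    {R : RadData A} (D D' : CData A R) : (rat D D').Countable := by
  refine Set.PairwiseDisjoint.countable_of_isOpen
    (s := fun a : ℝ => {p | p ∉ A.sing ∧ p ∈ D.c.source ∧
      ∀ᶠ q in 𝓝 p, D'.Z q = (a : ℂ) * D.Z q}) ?_ ?_ ?_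
  · intro a _ b _ hab
    refine Set.disjoint_left.mpr ?_
    rintro p ⟨hp, hpc, h1⟩ ⟨_, _, h2⟩
    have h3 := h1.self_of_nhds
    have h4 := h2.self_of_nhds
    rw [h3] at h4
    have h5 := mul_right_cancel₀ (D.ne_zero hpc hp) h4
    exact hab (by exact_mod_cast h5)
  · intro a _
    have h1 : IsOpen {p : X | p ∉ A.sing} := A.sing_finite.isClosed.isOpen_compl
    have h2 : IsOpen {p : X | ∀ᶠ q in 𝓝 p, D'.Z q = (a : ℂ) * D.Z q} :=
      isOpen_setOfPred_eventually_nhds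
    exact h1.inter (D.c.open_source.inter h2)
  · rintro a ⟨_, p, hp, hpc, _, h⟩
    exact ⟨p, hp, hpc, h⟩

theorem exists_ratio {A : AffineSurface X} {R : RadData A} (D D' : CData A R) {p : X}
    (hps : p ∉ A.sing) (hp : p ∈ D.c.source) (hp' : p ∈ D'.c.source) :
    ∃ a ∈ rat D D', D'.Z p = (a : ℂ) * D.Z p := by
  obtain ⟨e, he, hpe⟩ := A.cover p hps
  obtain ⟨a, ha, h⟩ := D.cmp e he p hp hpe
  obtain ⟨b, hb, h'⟩ := D'.cmp e he p hp' hpe
  have key : ∀ᶠ q in 𝓝 p, D'.Z q = ((a / b : ℝ) : ℂ) * D.Z q := by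
    filter_upwards [h, h'] with q h1 h2
    have hb' : (b : ℂ) ≠ 0 := by exact_mod_cast hb.ne'
    push_cast
    field_simp
    linear_combination h1 - h2
  exact ⟨a / b, ⟨div_pos ha hb, p, hps, hp, hp', key⟩, key.self_of_nhds⟩

/-- the monoid generated by the ratios -/
def lam {ι : Type*} {A : AffineSurface X} {R : RadData A} (D : ι → CData A R) : Set ℝ :=
  Set.range fun l : List {a : ℝ // ∃ i j, a ∈ rat (D i) (D j)} => (l.map Subtype.val).prod

section

variable {ι : Type*} {A : AffineSurface X} {R : RadData A} (D : ι → CData A R)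

theorem lam_one : (1 : ℝ) ∈ lam D := ⟨[], by simp⟩

theorem lam_rat {a : ℝ} {i j : ι} (h : a ∈ rat (D i) (D j)) : a ∈ lam D :=
  ⟨[⟨a, i, j, h⟩], by simp⟩

theorem lam_mul {a b : ℝ} (ha : a ∈ lam D) (hb : b ∈ lam D) : a * b ∈ lam D := by
  obtain ⟨l, rfl⟩ := ha
  obtain ⟨l', rfl⟩ := hb
  exact ⟨l ++ l', by simp⟩

theorem lam_pos {a : ℝ} (ha : a ∈ lam D) : 0 < a := by
  obtain ⟨l, rfl⟩ := ha
  refine List.prod_pos ?_
  intro x hx
  obtain ⟨y, _, rfl⟩ := List.mem_map.mp hx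
  obtain ⟨i, j, h⟩ := y.2
  exact h.1

theorem lam_countable [Countable ι] [T2Space X] [SecondCountableTopology X] :
    (lam D).Countable := by
  have h1 : {a : ℝ | ∃ i j, a ∈ rat (D i) (D j)}.Countable := by
    have h2 : {a : ℝ | ∃ i j, a ∈ rat (D i) (D j)} = ⋃ i, ⋃ j, rat (D i) (D j) := by
      ext a
      simp
    rw [h2]
    exact countable_iUnion fun i => countable_iUnion fun j => rat_countable _ _
  have : Countable {a : ℝ // ∃ i j, a ∈ rat (D i) (D j)} := h1.to_subtype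
  exact countable_range _

/-- near `y` the chart `e` is a multiple of a developing map with factor in `a0 lam` -/
def QQ (e : OpenPartialHomeomorph X ℂ) (a0 : ℝ) (y : X) : Prop :=
  ∃ j, y ∈ (D j).c.source ∧ ∃ α : ℝ, 0 < α ∧
    (∀ᶠ z in 𝓝 y, e z - R.o e = (α : ℂ) * (D j).Z z) ∧ α / a0 ∈ lam D

variable (hD : ∀ x, ∃ i, x ∈ (D i).c.source)

include hD

theorem QQ_locally {e : OpenPartialHomeomorph X ℂ} (he : e ∈ A.atlas) (a0 : ℝ) {x : X}
    (hx : x ∈ e.source) : ∀ᶠ y in 𝓝 x, (QQ D e a0 y ↔ QQ D e a0 x) := by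
  obtain ⟨j, hj⟩ := hD x
  obtain ⟨α, hα, h⟩ := (D j).cmp e he x hj hx
  have claim : ∀ᶠ y in 𝓝 x, (QQ D e a0 y ↔ α / a0 ∈ lam D) := by
    filter_upwards [eventually_eventually_nhds.mpr h, e.open_source.mem_nhds hx,
      (D j).c.open_source.mem_nhds hj] with y hy hye hyj
    constructor
    · rintro ⟨j', hj', α', hα', h', hm⟩
      have key : ∀ᶠ z in 𝓝 y, (D j').Z z = ((α / α' : ℝ) : ℂ) * (D j).Z z := by
        filter_upwards [hy, h'] with z h1 h2
        have hb' : (α' : ℂ) ≠ 0 := by exact_mod_cast hα'.ne'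
        push_cast
        field_simp
        linear_combination h1 - h2
      have h3 : α / α' ∈ rat (D j) (D j') :=
        ⟨div_pos hα hα', y, A.regular e he y hye, hyj, hj', key⟩
      have h4 := lam_mul D (lam_rat D h3) hm
      have h5 : α / α' * (α' / a0) = α / a0 := by
        field_simp
      rwa [h5] at h4
    · intro hm
      exact ⟨j, hyj, α, hα, hy, hm⟩
  filter_upwards [claim] with y hy
  rw [hy, claim.self_of_nhds]

theorem step_segment {v : ℂ} {e : OpenPartialHomeomorph X ℂ} (he : e ∈ A.atlas) {q r : X}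
    (hq : q ∈ e.source) (hr : r ∈ e.source) {t : ℝ} (hqr : e r = e q + (t : ℂ) * v)
    (hs : segment ℝ (e q) (e r) ⊆ e.target) {i : ι} (hi : q ∈ (D i).c.source) :
    ∃ j, r ∈ (D j).c.source ∧ ∃ m ∈ lam D, ∃ b : ℝ, 0 < b ∧
      (m : ℂ) * (D j).Z r = (D i).Z q + ((b * t : ℝ) : ℂ) * v := by
  obtain ⟨a0, ha0, h0⟩ := (D i).cmp e he q hi hq
  have hK : IsPreconnected (e.symm '' segment ℝ (e q) (e r)) :=
    (convex_segment _ _).isPreconnected.image _ (e.continuousOn_symm.mono hs)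
  have hKs : e.symm '' segment ℝ (e q) (e r) ⊆ e.source := by
    rintro _ ⟨z, hz, rfl⟩
    exact e.map_target (hs hz)
  have hqK : q ∈ e.symm '' segment ℝ (e q) (e r) :=
    ⟨e q, left_mem_segment ℝ _ _, e.left_inv hq⟩
  have hrK : r ∈ e.symm '' segment ℝ (e q) (e r) :=
    ⟨e r, right_mem_segment ℝ _ _, e.left_inv hr⟩
  have : PreconnectedSpace (e.symm '' segment ℝ (e q) (e r)) :=
    isPreconnected_iff_preconnectedSpace.mp hK
  have hlc : IsLocallyConstant
      (fun x : (e.symm '' segment ℝ (e q) (e r)) => QQ D e a0 x.1) := by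
    rw [IsLocallyConstant.iff_eventually_eq]
    intro x
    have h1 := (continuous_subtype_val.tendsto x).eventually
      (QQ_locally D hD he a0 (hKs x.2))
    filter_upwards [h1] with y hy
    exact propext hy
  have hQq : QQ D e a0 q := ⟨i, hi, a0, ha0, h0, by
    rw [div_self ha0.ne']
    exact lam_one D⟩
  have hQr : QQ D e a0 r := by
    have h1 := hlc.apply_eq_of_preconnectedSpace ⟨q, hqK⟩ ⟨r, hrK⟩
    exact (eq_iff_iff.mp h1).mp hQq
  obtain ⟨j, hj, α, hα, hE, hm⟩ := hQr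
  refine ⟨j, hj, α / a0, hm, a0⁻¹, inv_pos.mpr ha0, ?_⟩
  have h1 := h0.self_of_nhds
  have h2 := hE.self_of_nhds
  have h3 : (a0 : ℂ) ≠ 0 := by exact_mod_cast ha0.ne'
  push_cast
  field_simp
  linear_combination h1 - h2 + hqr

theorem inv_cont {v : ℂ} {e : OpenPartialHomeomorph X ℂ} {p : X}
    {e' : OpenPartialHomeomorph X ℂ} {q : X} {l : ℝ} (h : Cont A v e p e' q l) {i0 : ι}
    (hi0 : p ∈ (D i0).c.source) :
    ∃ j, q ∈ (D j).c.source ∧ ∃ m ∈ lam D, ∃ T : ℝ, 0 ≤ T ∧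
      (m : ℂ) * (D j).Z q = (D i0).Z p + (T : ℂ) * v := by
  induction h with
  | refl he hp => exact ⟨i0, hi0, 1, lam_one D, 0, le_rfl, by simp⟩
  | move e' q l r t h hr ht hqr hs ih =>
    obtain ⟨j, hj, m, hm, T, hT, hE⟩ := ih
    have hf := h.facts
    obtain ⟨k, hk, m', hm', b, hb, hE'⟩ :=
      step_segment D hD hf.2.2.1 hf.2.2.2.1 hr hqr hs hj
    have hm0 := lam_pos D hm
    refine ⟨k, hk, m * m', lam_mul D hm hm', T + m * (b * t), by positivity, ?_⟩
    push_cast at hE' ⊢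
    linear_combination (m : ℂ) * hE' + hE
  | change e' q l e'' a b h he hq ha hab ih => exact ih

theorem inv_reach {v : ℂ} {p q : X} (h : Reach A v p q) {i0 i : ι}
    (hi0 : p ∈ (D i0).c.source) (hi : q ∈ (D i).c.source) :
    ∃ m ∈ lam D, ∃ T : ℝ, 0 ≤ T ∧ (m : ℂ) * (D i).Z q = (D i0).Z p + (T : ℂ) * v := by
  have hr := h.right
  obtain ⟨e, e', l, hc⟩ := h
  obtain ⟨j, hj, m, hm, T, hT, hE⟩ := inv_cont D hD hc hi0
  obtain ⟨a, ha, hE'⟩ := exists_ratio (D i) (D j) hr hi hj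
  refine ⟨m * a, lam_mul D hm (lam_rat D ha), T, hT, ?_⟩
  push_cast
  linear_combination hE - (m : ℂ) * hE'

end

theorem const_of_countable {f : ℝ → ℝ} {a b : ℝ} (hf : ContinuousOn f (Icc a b))
    (hc : (f '' Icc a b).Countable) {x y : ℝ} (hx : x ∈ Icc a b) (hy : y ∈ Icc a b) :
    f x = f y := by
  by_contra hne
  have hpre : IsPreconnected (f '' Icc a b) := isPreconnected_Icc.image f hf
  wlog hlt : f x < f y generalizing x y
  · exact this hy hx (Ne.symm hne) (lt_of_le_of_ne (not_lt.mp hlt) (Ne.symm hne))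
  have hsub : Icc (f x) (f y) ⊆ f '' Icc a b :=
    hpre.Icc_subset (mem_image_of_mem f hx) (mem_image_of_mem f hy)
  obtain ⟨z, hz, hz'⟩ := (hc.dense_compl ℝ).exists_between hlt
  exact hz (hsub ⟨hz'.1.le, hz'.2.le⟩)

theorem end_sing {ι : Type*} {A : AffineSurface X} {R : RadData A} (D : ι → CData A R)
    (hD : ∀ x, ∃ i, x ∈ (D i).c.source) (hcount : (lam D).Countable) {v : ℂ} (hv : ‖v‖ = 1)
    {p : X} (h : FwdSing A v p) :
    (∃ i, ∃ s ∈ A.sing, s ∈ (D i).c.source ∧ (D i).Z s ≠ 0 ∧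
      ∃ x : ℝ, (D i).Z s = (x : ℂ) * v) ∨
    ∀ i0, p ∈ (D i0).c.source → ∃ i, ∃ s ∈ A.sing, s ∈ (D i).c.source ∧ ∃ m ∈ lam D,
      ∃ T : ℝ, 0 < T ∧ (m : ℂ) * (D i).Z s = (D i0).Z p + (T : ℂ) * v := by
  obtain ⟨q, s, γ, hpq, hs, hγ, hγ0, hγ1, hreg, hreach⟩ := h
  obtain ⟨i, hi⟩ := hD s
  have hv0 : v ≠ 0 := by
    intro h0
    rw [h0, norm_zero] at hv
    exact zero_ne_one hv
  have hW : ∀ᶠ t in 𝓝[Icc (0 : ℝ) 1] 1, γ t ∈ (D i).c.source :=
    (hγ 1 ⟨zero_le_one, le_rfl⟩).eventually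
      ((D i).c.open_source.mem_nhds (by rw [hγ1]; exact hi))
  obtain ⟨ε, hε, hball⟩ := Metric.mem_nhdsWithin_iff.mp hW
  obtain ⟨t0, ht0, ht01, hsrc⟩ : ∃ t0 : ℝ, 0 < t0 ∧ t0 < 1 ∧
      ∀ t ∈ Icc t0 1, γ t ∈ (D i).c.source := by
    refine ⟨max (1 - ε / 2) (1 / 2), lt_max_of_lt_right (by norm_num),
      max_lt (by linarith) (by norm_num), ?_⟩
    intro t ht
    have h1 : 1 - ε / 2 ≤ t := (le_max_left _ _).trans ht.1
    have h2 : 1 / 2 ≤ t := (le_max_right _ _).trans ht.1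
    refine hball ⟨?_, ⟨by linarith, ht.2⟩⟩
    rw [Metric.mem_ball, Real.dist_eq, abs_lt]
    constructor
    · linarith
    · linarith [ht.2]
  have hxreg : γ t0 ∉ A.sing := hreg t0 ⟨ht0.le, ht01⟩
  have hpx : Reach A v p (γ t0) := hpq.trans (hγ0 ▸ hreach 0 t0 le_rfl ht0 ht01)
  have hxi : γ t0 ∈ (D i).c.source := hsrc t0 ⟨le_rfl, ht01.le⟩
  have hcw : ContinuousOn (fun t => (D i).Z (γ t) / v) (Icc t0 1) := by
    refine ContinuousOn.div_const ?_ v
    exact (D i).cont.comp (hγ.mono (Icc_subset_Icc ht0.le le_rfl)) hsrc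
  have hmT : ∀ t ∈ Ico t0 1, ∃ m ∈ lam D, ∃ T : ℝ, 0 ≤ T ∧
      (m : ℂ) * ((D i).Z (γ t) / v) = (D i).Z (γ t0) / v + (T : ℂ) := by
    intro t ht
    rcases eq_or_lt_of_le ht.1 with h1 | h1
    · refine ⟨1, lam_one D, 0, le_rfl, ?_⟩
      rw [← h1]
      simp
    · obtain ⟨m, hm, T, hT, hE⟩ :=
        inv_reach D hD (hreach t0 t ht0.le h1 ht.2) hxi (hsrc t ⟨ht.1, ht.2.le⟩)
      refine ⟨m, hm, T, hT, ?_⟩
      field_simp
      linear_combination hE
  have him : ∀ t ∈ Icc t0 1, ((D i).Z (γ t) / v).im = ((D i).Z (γ t0) / v).im := by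
    intro t ht
    refine const_of_countable (f := fun t => ((D i).Z (γ t) / v).im)
      (Complex.continuous_im.comp_continuousOn hcw) ?_ ht ⟨le_rfl, ht01.le⟩
    have hsub : (fun t => ((D i).Z (γ t) / v).im) '' Icc t0 1 ⊆
        insert (((D i).Z (γ 1) / v).im)
          ((fun m : ℝ => m⁻¹ * ((D i).Z (γ t0) / v).im) '' lam D) := by
      rintro _ ⟨u, hu, rfl⟩
      rcases eq_or_lt_of_le hu.2 with h1 | h1
      · left
        simp only [h1]
      · right
        obtain ⟨m, hm, T, hT, hE⟩ := hmT u ⟨hu.1, h1⟩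
        refine ⟨m, hm, ?_⟩
        have h2 := congrArg Complex.im hE
        rw [Complex.add_im, Complex.ofReal_im, add_zero, Complex.im_ofReal_mul] at h2
        have hm0 := lam_pos D hm
        change m⁻¹ * ((D i).Z (γ t0) / v).im = ((D i).Z (γ u) / v).im
        rw [← h2]
        field_simp
    exact ((hcount.image _).insert _).mono hsub
  by_cases hc : ((D i).Z (γ t0) / v).im = 0
  · left
    refine ⟨i, s, hs, hi, ((D i).inj s hi hs).1, ((D i).Z s / v).re, ?_⟩
    have h1 : ((D i).Z s / v).im = 0 := by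
      have h2 := him 1 ⟨ht01.le, le_rfl⟩
      rw [hγ1] at h2
      rw [h2, hc]
    have h3 : ((((D i).Z s / v).re : ℝ) : ℂ) = (D i).Z s / v := by
      apply Complex.ext
      · simp
      · simp only [Complex.ofReal_im]
        exact h1.symm
    rw [h3]
    field_simp
  · right
    intro i0 hi0
    have hge : ∀ t ∈ Ico t0 1, ((D i).Z (γ t0) / v).re ≤ ((D i).Z (γ t) / v).re := by
      intro t ht
      obtain ⟨m, hm, T, hT, hE⟩ := hmT t ht
      have h2 := congrArg Complex.im hE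
      rw [Complex.add_im, Complex.ofReal_im, add_zero, Complex.im_ofReal_mul,
        him t ⟨ht.1, ht.2.le⟩] at h2
      have h3 : m = 1 := mul_right_cancel₀ hc (by rw [h2, one_mul])
      have h4 := congrArg Complex.re hE
      rw [Complex.add_re, Complex.ofReal_re, Complex.re_ofReal_mul, h3, one_mul] at h4
      linarith
    have hre : ((D i).Z (γ t0) / v).re ≤ ((D i).Z s / v).re := by
      have h1 : Tendsto (fun t => ((D i).Z (γ t) / v).re) (𝓝[Ico t0 1] 1)
          (𝓝 (((D i).Z (γ 1) / v).re)) :=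
        ((Complex.continuous_re.comp_continuousOn hcw) 1 ⟨ht01.le, le_rfl⟩).mono_left
          (nhdsWithin_mono _ Ico_subset_Icc_self)
      have hne : (𝓝[Ico t0 1] (1 : ℝ)).NeBot := by
        rw [nhdsWithin_Ico_eq_nhdsLT ht01]
        infer_instance
      rw [hγ1] at h1
      refine ge_of_tendsto h1 ?_
      filter_upwards [self_mem_nhdsWithin] with t ht
      exact hge t ht
    have hZs : (D i).Z s = (D i).Z (γ t0) +
        ((((D i).Z s / v).re - ((D i).Z (γ t0) / v).re : ℝ) : ℂ) * v := by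
      have h2 := him 1 ⟨ht01.le, le_rfl⟩
      rw [hγ1] at h2
      have h3 : ((((D i).Z s / v).re - ((D i).Z (γ t0) / v).re : ℝ) : ℂ) =
          (D i).Z s / v - (D i).Z (γ t0) / v := by
        apply Complex.ext
        · simp
        · rw [Complex.ofReal_im, Complex.sub_im, h2, sub_self]
      rw [h3]
      field_simp
      ring
    have hpos : 0 < ((D i).Z s / v).re - ((D i).Z (γ t0) / v).re := by
      rcases eq_or_lt_of_le (sub_nonneg.mpr hre) with h1 | h1
      · exfalso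
        rw [← h1, Complex.ofReal_zero, zero_mul, add_zero] at hZs
        have h2 := ((D i).inj s hi hs).2 (γ t0) hxi hZs.symm
        rw [h2] at hxreg
        exact hxreg hs
      · exact h1
    obtain ⟨m, hm, T', hT', hE⟩ := inv_reach D hD hpx hi0 hxi
    have hm0 := lam_pos D hm
    generalize ((D i).Z s / v).re - ((D i).Z (γ t0) / v).re = T at hZs hpos
    refine ⟨i, s, hs, hi, m, hm, T' + m * T, by positivity, ?_⟩
    push_cast
    linear_combination (m : ℂ) * hZs + hE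

theorem saddle_countable [CompactSpace X] [T2Space X] (A : AffineSurface X) (R : RadData A) :
    {v : ℂ | ‖v‖ = 1 ∧ ∃ p, p ∉ A.sing ∧ FwdSing A v p ∧ FwdSing A (-v) p}.Countable := by
  choose E hE using CData.exists_at A R
  obtain ⟨t, ht⟩ := CompactSpace.elim_nhds_subcover (fun x => (E x).c.source)
    (fun x => (E x).c.open_source.mem_nhds (hE x))
  have hD : ∀ x, ∃ i : t, x ∈ (E i.1).c.source := by
    intro x
    have hx : x ∈ ⋃ y ∈ t, (E y).c.source := by
      rw [ht]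
      trivial
    simp only [mem_iUnion] at hx
    obtain ⟨y, hy, hxy⟩ := hx
    exact ⟨⟨y, hy⟩, hxy⟩
  have hU : ⋃ i : t, (E i.1).c.source = univ := by
    rw [eq_univ_iff_forall]
    intro x
    obtain ⟨i, hi⟩ := hD x
    exact mem_iUnion.mpr ⟨i, hi⟩
  have hsc : ∀ i : t, SecondCountableTopology (E i.1).c.source :=
    fun i => (E i.1).c.secondCountableTopology_source
  have : SecondCountableTopology X :=
    TopologicalSpace.secondCountableTopology_of_countable_cover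
      (fun i : t => (E i.1).c.open_source) hU
  have hcount : (lam (fun i : t => E i.1)).Countable := lam_countable _
  have hP : (⋃ i : t, (E i.1).Z '' A.sing).Countable :=
    countable_iUnion fun i => A.sing_finite.countable.image _
  set P : Set ℂ := ⋃ i : t, (E i.1).Z '' A.sing with hPdef
  have hS1 : ((fun z : ℂ => z / (‖z‖ : ℂ)) '' P ∪ (fun z : ℂ => -(z / (‖z‖ : ℂ))) '' P ∪
      (fun u : (ℂ × ℝ) × (ℂ × ℝ) => ((u.1.2 : ℂ) * u.1.1 - (u.2.2 : ℂ) * u.2.1) /
        (‖(u.1.2 : ℂ) * u.1.1 - (u.2.2 : ℂ) * u.2.1‖ : ℂ)) ''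
        ((P ×ˢ lam (fun i : t => E i.1)) ×ˢ (P ×ˢ lam (fun i : t => E i.1)))).Countable :=
    ((hP.image _).union (hP.image _)).union
      (((hP.prod hcount).prod (hP.prod hcount)).image _)
  refine hS1.mono ?_
  have hcase : ∀ z : ℂ, ∀ w : ℂ, z ∈ P → z ≠ 0 → ‖w‖ = 1 → ∀ x : ℝ, z = (x : ℂ) * w →
      w = z / (‖z‖ : ℂ) ∨ w = -(z / (‖z‖ : ℂ)) := by
    intro z w hz hz0 hw x hx
    have hx0 : x ≠ 0 := by
      rintro rfl
      apply hz0
      rw [hx]
      simp
    have hx0' : (x : ℂ) ≠ 0 := by exact_mod_cast hx0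
    have hnz : ‖z‖ = |x| := by
      rw [hx, norm_mul, hw, mul_one, Complex.norm_real, Real.norm_eq_abs]
    rcases lt_or_gt_of_ne hx0 with h | h
    · right
      rw [hnz, abs_of_neg h, hx]
      push_cast
      field_simp
    · left
      rw [hnz, abs_of_pos h, hx]
      field_simp
  rintro v ⟨hv, p, hp, h1, h2⟩
  obtain ⟨i0, hi0⟩ := hD p
  have hv' : ‖-v‖ = 1 := by rw [norm_neg, hv]
  rcases end_sing (fun i : t => E i.1) hD hcount hv h1 with
    ⟨i, s, hs, hsi, hne, x, hx⟩ | h1'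
  · left
    have hmem : (E i.1).Z s ∈ P := mem_iUnion.mpr ⟨i, s, hs, rfl⟩
    rcases hcase _ v hmem hne hv x hx with h | h
    · exact Or.inl ⟨_, hmem, h.symm⟩
    · exact Or.inr ⟨_, hmem, h.symm⟩
  rcases end_sing (fun i : t => E i.1) hD hcount hv' h2 with
    ⟨i, s, hs, hsi, hne, x, hx⟩ | h2'
  · left
    have hmem : (E i.1).Z s ∈ P := mem_iUnion.mpr ⟨i, s, hs, rfl⟩
    have hx' : (E i.1).Z s = ((-x : ℝ) : ℂ) * v := by
      push_cast
      linear_combination hx
    rcases hcase _ v hmem hne hv (-x) hx' with h | h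
    · exact Or.inl ⟨_, hmem, h.symm⟩
    · exact Or.inr ⟨_, hmem, h.symm⟩
  right
  obtain ⟨i, s, hs, hsi, m, hm, T, hT, hE1⟩ := h1' i0 hi0
  obtain ⟨i', s', hs', hsi', m', hm', T', hT', hE2⟩ := h2' i0 hi0
  refine ⟨(((E i.1).Z s, m), ((E i'.1).Z s', m')),
    ⟨⟨mem_iUnion.mpr ⟨i, s, hs, rfl⟩, hm⟩, ⟨mem_iUnion.mpr ⟨i', s', hs', rfl⟩, hm'⟩⟩, ?_⟩
  have hw : (m : ℂ) * (E i.1).Z s - (m' : ℂ) * (E i'.1).Z s' = ((T + T' : ℝ) : ℂ) * v := by
    push_cast
    linear_combination hE1 - hE2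
  have hTT : 0 < T + T' := by positivity
  have hTT' : ((T + T' : ℝ) : ℂ) ≠ 0 := by exact_mod_cast hTT.ne'
  have hnw : ‖((T + T' : ℝ) : ℂ) * v‖ = T + T' := by
    rw [norm_mul, hv, mul_one, Complex.norm_real, Real.norm_eq_abs, abs_of_pos hTT]
  change ((m : ℂ) * (E i.1).Z s - (m' : ℂ) * (E i'.1).Z s') /
    (‖(m : ℂ) * (E i.1).Z s - (m' : ℂ) * (E i'.1).Z s'‖ : ℂ) = v
  rw [hw, hnw]
  field_simp

end Pool.Agent.H56.AS
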