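import Mathlib

/-! Affine surfaces (charts in the complex plane, transition maps z -> a z + b with a > 0, cone
points of angle 2 k pi), leaves of the directional foliations, hyperbolic directions. -/

namespace Pool.Agent.H56.AS

open Set Filter Topology

variable {X : Type*} [TopologicalSpace X]

/-- An affine surface. -/
structure AffineSurface (X : Type*) [TopologicalSpace X] where
  /-- the set of singular points -/
  sing : Set X
  /-- the charts of the regular part -/
  atlas : Set (OpenPartialHomeomorph X ℂ)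
  sing_finite : sing.Finite
  regular : ∀ e ∈ atlas, ∀ p ∈ e.source, p ∉ sing
  cover : ∀ p, p ∉ sing → ∃ e ∈ atlas, p ∈ e.source
  trans : ∀ e ∈ atlas, ∀ e' ∈ atlas, ∀ p, p ∈ e.source → p ∈ e'.source →
    ∃ a : ℝ, 0 < a ∧ ∃ b : ℂ, ∀ᶠ q in 𝓝 p, e' q = (a : ℂ) * e q + b
  cone : ∀ s ∈ sing, ∃ k : ℕ, 2 ≤ k ∧ ∃ c : OpenPartialHomeomorph X ℂ, s ∈ c.source ∧ c s = 0 ∧
    (∀ q ∈ c.source, q ≠ s → q ∉ sing) ∧
    ∀ e ∈ atlas, ∀ p, p ∈ c.source → p ∈ e.source →
      ∃ a : ℝ, 0 < a ∧ ∃ b : ℂ, ∀ᶠ q in 𝓝 p, e q = (a : ℂ) * (c q) ^ k + b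

/-- `Cont A v e p e' q l`: starting at `p` with the chart `e`, one reaches `q` with the chart `e'`
by finitely many moves along straight segments in the direction `v` and changes of charts; `l` is
the linear part of the passage from the continuation of `e` to `e'`. -/
inductive Cont (A : AffineSurface X) (v : ℂ) :
    OpenPartialHomeomorph X ℂ → X → OpenPartialHomeomorph X ℂ → X → ℝ → Prop
  | refl (e : OpenPartialHomeomorph X ℂ) (p : X) (he : e ∈ A.atlas) (hp : p ∈ e.source) :
      Cont A v e p e p 1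
  | move (e : OpenPartialHomeomorph X ℂ) (p : X) (e' : OpenPartialHomeomorph X ℂ) (q : X) (l : ℝ)
      (r : X) (t : ℝ) (h : Cont A v e p e' q l) (hr : r ∈ e'.source) (ht : 0 < t)
      (hqr : e' r = e' q + (t : ℂ) * v) (hs : segment ℝ (e' q) (e' r) ⊆ e'.target) :
      Cont A v e p e' r l
  | change (e : OpenPartialHomeomorph X ℂ) (p : X) (e' : OpenPartialHomeomorph X ℂ) (q : X) (l : ℝ)
      (e'' : OpenPartialHomeomorph X ℂ) (a : ℝ) (b : ℂ) (h : Cont A v e p e' q l)
      (he : e'' ∈ A.atlas) (hq : q ∈ e''.source) (ha : 0 < a)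
      (hab : ∀ᶠ x in 𝓝 q, e'' x = (a : ℂ) * e' x + b) :
      Cont A v e p e'' q (a * l)

/-- `q` lies on the forward half-leaf of `p` (in the direction `v`). -/
def Reach (A : AffineSurface X) (v : ℂ) (p q : X) : Prop :=
  ∃ (e e' : OpenPartialHomeomorph X ℂ) (l : ℝ), Cont A v e p e' q l

/-- The leaf of `p` in the direction `v`. -/
def leaf (A : AffineSurface X) (v : ℂ) (p : X) : Set X := {q | Reach A v p q ∨ Reach A v q p}

/-- The leaf through `y` is closed and hyperbolic: the continuation of a chart `e` along the leaf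
from `y` back to `y` is `e` up to `x -> l x + b` with `l` different from `1`. -/
def ClosedHyp (A : AffineSurface X) (v : ℂ) (y : X) : Prop :=
  ∃ (e : OpenPartialHomeomorph X ℂ) (l : ℝ), l ≠ 1 ∧ Cont A v e y e y l

/-- The closed leaf through `y`: the points which are reached from `y` and from which `y` is
reached. -/
def closedLeaf (A : AffineSurface X) (v : ℂ) (y : X) : Set X :=
  {q | Reach A v y q ∧ Reach A v q y}

/-- The direction `v` is hyperbolic: there are finitely many hyperbolic closed leaves, and every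
leaf accumulates on one of them (or is one of them). -/
def HyperbolicDir (A : AffineSurface X) (v : ℂ) : Prop :=
  ∃ F : Set X, F.Finite ∧ (∀ y ∈ F, ClosedHyp A v y) ∧
    ∀ p, p ∉ A.sing → ∃ y ∈ F, closedLeaf A v y ⊆ closure (leaf A v p)

/-- The affine holonomy has a fixed point: after translations of the charts by `o e` all transition
maps are multiplications by positive reals, the charts avoid `0`, and near the cone points they
are `a * (z0 + c ^ k)`. -/
structure RadData (A : AffineSurface X) where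
  o : OpenPartialHomeomorph X ℂ → ℂ
  ne : ∀ e ∈ A.atlas, ∀ p ∈ e.source, e p - o e ≠ 0
  tr : ∀ e ∈ A.atlas, ∀ e' ∈ A.atlas, ∀ p, p ∈ e.source → p ∈ e'.source →
    ∃ a : ℝ, 0 < a ∧ ∀ᶠ q in 𝓝 p, e' q - o e' = (a : ℂ) * (e q - o e)
  cn : ∀ s ∈ A.sing, ∃ k : ℕ, 2 ≤ k ∧ ∃ c : OpenPartialHomeomorph X ℂ, s ∈ c.source ∧ c s = 0 ∧
    (∀ q ∈ c.source, q ≠ s → q ∉ A.sing) ∧ ∃ z0 : ℂ, z0 ≠ 0 ∧
    ∀ e ∈ A.atlas, ∀ p, p ∈ c.source → p ∈ e.source →
      ∃ a : ℝ, 0 < a ∧ ∀ᶠ q in 𝓝 p, e q - o e = (a : ℂ) * (z0 + (c q) ^ k)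

/-- The surface is radiant: the affine holonomy fixes a point. -/
def Radiant (A : AffineSurface X) : Prop := Nonempty (RadData A)

/-- The forward half-leaf of `p` ends at a singular point. -/
def FwdSing (A : AffineSurface X) (v : ℂ) (p : X) : Prop :=
  ∃ (q s : X) (γ : ℝ → X), Reach A v p q ∧ s ∈ A.sing ∧ ContinuousOn γ (Icc 0 1) ∧ γ 0 = q ∧
    γ 1 = s ∧ (∀ t ∈ Ico (0 : ℝ) 1, γ t ∉ A.sing) ∧
    ∀ t t' : ℝ, 0 ≤ t → t < t' → t' < 1 → Reach A v (γ t) (γ t')

end Pool.Agent.H56.AS
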