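import Pool.Agent.H56.AS.Defs
import Pool.Agent.H56.AS.Basic

/-! The closure of a forward half-leaf is invariant. -/

namespace Pool.Agent.H56.AS

open Set Filter Topology

variable {X : Type*} [TopologicalSpace X]

theorem segment_shift {u w z c : ℂ} (hz : z ∈ segment ℝ u (u + c)) :
    ∃ z' ∈ segment ℝ w (w + c), z - z' = u - w := by
  obtain ⟨a, b, ha, hb, hab, rfl⟩ := hz
  refine ⟨a • w + b • (w + c), ⟨a, b, ha, hb, hab, rfl⟩, ?_⟩
  have h1 : a • u + b • (u + c) = u + b • c := by
    have : a • u + b • (u + c) = (a + b) • u + b • c := by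
      rw [smul_add, add_smul]; abel
    rw [this, hab, one_smul]
  have h2 : a • w + b • (w + c) = w + b • c := by
    have : a • w + b • (w + c) = (a + b) • w + b • c := by
      rw [smul_add, add_smul]; abel
    rw [this, hab, one_smul]
  rw [h1, h2]
  ring

theorem closure_inv_aux {A : AffineSurface X} {v : ℂ} {S : Set X}
    (hS : ∀ r1 r2, r1 ∈ S → Reach A v r1 r2 → r2 ∈ S)
    {e : OpenPartialHomeomorph X ℂ} {x : X} {e' : OpenPartialHomeomorph X ℂ} {q : X} {l : ℝ}
    (h : Cont A v e x e' q l) (hx : x ∈ closure S) : q ∈ closure S := by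
  induction h with
  | refl he hp => exact hx
  | change e' q l e'' a b h he hq ha hab ih => exact ih
  | move e' q l r t h hr ht hqr hs ih =>
    have hq := ih
    obtain ⟨-, -, he', hq', -⟩ := h.facts
    have hK : IsCompact (segment ℝ (e' q) (e' r)) := by
      rw [segment_eq_image_lineMap]
      exact isCompact_Icc.image (AffineMap.lineMap_continuous)
    obtain ⟨δ, hδ, hsub⟩ := hK.exists_thickening_subset_open e'.open_target hs
    rw [mem_closure_iff_nhds]
    intro W hW
    have hcont : Tendsto (fun r1 => e' r1 + (t : ℂ) * v) (𝓝 q) (𝓝 (e' r)) := by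
      rw [hqr]
      exact (e'.continuousAt hq').add tendsto_const_nhds
    have hsym : Tendsto e'.symm (𝓝 (e' r)) (𝓝 r) := by
      have := e'.symm.continuousAt (x := e' r) (by simpa using e'.map_source hr)
      have h2 : e'.symm (e' r) = r := e'.left_inv hr
      rw [ContinuousAt, h2] at this
      exact this
    have ev1 : ∀ᶠ r1 in 𝓝 q, e'.symm (e' r1 + (t : ℂ) * v) ∈ W := (hsym.comp hcont) hW
    have ev2 : ∀ᶠ r1 in 𝓝 q, r1 ∈ e'.source := e'.open_source.mem_nhds hq'
    have ev3 : ∀ᶠ r1 in 𝓝 q, dist (e' r1) (e' q) < δ :=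
      (e'.continuousAt hq') (Metric.ball_mem_nhds _ hδ)
    obtain ⟨r1, ⟨h1, h2, h3⟩, hr1S⟩ := mem_closure_iff_nhds.1 hq _ (ev1.and (ev2.and ev3))
    have hseg : segment ℝ (e' r1) (e' r1 + (t : ℂ) * v) ⊆ e'.target := by
      intro z hz
      apply hsub
      obtain ⟨z', hz', hzz⟩ := segment_shift (w := e' q) hz
      rw [← hqr] at hz'
      rw [Metric.mem_thickening_iff]
      refine ⟨z', hz', ?_⟩
      rw [dist_eq_norm, hzz, ← dist_eq_norm]
      exact h3
    have htgt : e' r1 + (t : ℂ) * v ∈ e'.target := hseg (right_mem_segment ℝ _ _)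
    have h4 : e' (e'.symm (e' r1 + (t : ℂ) * v)) = e' r1 + (t : ℂ) * v := e'.right_inv htgt
    have hreach : Reach A v r1 (e'.symm (e' r1 + (t : ℂ) * v)) :=
      reach_segment he' h2 (e'.map_target htgt) ht.le h4 (by rw [h4]; exact hseg)
    exact ⟨_, h1, hS _ _ hr1S hreach⟩

theorem closure_inv {A : AffineSurface X} {v : ℂ} {p x q : X}
    (hx : x ∈ closure {r | Reach A v p r}) (h : Reach A v x q) :
    q ∈ closure {r | Reach A v p r} := by
  obtain ⟨e, e', l, hc⟩ := h
  exact closure_inv_aux (fun r1 r2 h1 h2 => Reach.trans h1 h2) hc hx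

end Pool.Agent.H56.AS
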