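import Pool.Agent.H56.AS.Mono
import Pool.Agent.H56.AS.Basic
import Pool.Agent.H56.AS.Inv
import Pool.Agent.H56.AS.Cone

/-! A forward half-leaf ends at a singular point or accumulates on the level set `D = v`. -/

namespace Pool.Agent.H56.AS

open Set Filter Topology

variable {X : Type*} [TopologicalSpace X]

theorem dicho [CompactSpace X] [T2Space X] {A : AffineSurface X} {R : RadData A} {D : X → ℂ}
    (hD : DirData A R D) {v : ℂ} (hv : ‖v‖ = 1) (hs : ∀ s ∈ A.sing, D s ≠ v)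
    {p : X} (hp : p ∉ A.sing) (hpv : (D p * (starRingEnd ℂ) v).im ≠ 0) :
    FwdSing A v p ∨ ∃ x, D x = v ∧ x ∈ closure {q | Reach A v p q} := by
  have hvv : v * (starRingEnd ℂ) v = 1 := by
    rw [Complex.mul_conj, Complex.normSq_eq_norm_sq, hv]
    simp
  have hv0 : v ≠ 0 := by
    intro h0
    rw [h0, norm_zero] at hv
    exact zero_ne_one hv
  have hn : ∀ x : ℂ, ‖x‖ = 1 →
      (x * (starRingEnd ℂ) v).re ^ 2 + (x * (starRingEnd ℂ) v).im ^ 2 = 1 := by
    intro x hx
    have h1 : ‖x * (starRingEnd ℂ) v‖ = 1 := by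
      rw [norm_mul, RCLike.norm_conj, hx, hv, one_mul]
    have h2 : Complex.normSq (x * (starRingEnd ℂ) v) = 1 := by
      rw [Complex.normSq_eq_norm_sq, h1, one_pow]
    rw [Complex.normSq_apply] at h2
    nlinarith
  have hpS : p ∈ closure {q | Reach A v p q} := subset_closure (Reach.refl hp)
  have hcont : Continuous fun x => (D x * (starRingEnd ℂ) v).re :=
    Complex.continuous_re.comp (hD.cont.mul continuous_const)
  obtain ⟨x, hxK, hxmax⟩ := (isClosed_closure (s := {q | Reach A v p q})).isCompact.exists_isMaxOn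
    ⟨p, hpS⟩ hcont.continuousOn
  have hmax : ∀ y ∈ closure {q | Reach A v p q},
      (D y * (starRingEnd ℂ) v).re ≤ (D x * (starRingEnd ℂ) v).re := fun y hy => hxmax hy
  have hp1 : -1 < (D p * (starRingEnd ℂ) v).re := by
    have h1 := hn _ (hD.norm p)
    have h2 : 0 < (D p * (starRingEnd ℂ) v).im ^ 2 := by positivity
    nlinarith
  have hx1 : -1 < (D x * (starRingEnd ℂ) v).re := lt_of_lt_of_le hp1 (hmax p hpS)
  by_cases him : (D x * (starRingEnd ℂ) v).im = 0
  · right
    refine ⟨x, ?_, hxK⟩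
    have h1 := hn _ (hD.norm x)
    rw [him] at h1
    have h2 : (D x * (starRingEnd ℂ) v).re = 1 := by nlinarith
    have h3 : D x * (starRingEnd ℂ) v = 1 := Complex.ext (by rw [h2]; simp) (by rw [him]; simp)
    calc D x = D x * (v * (starRingEnd ℂ) v) := by rw [hvv, mul_one]
      _ = (D x * (starRingEnd ℂ) v) * v := by ring
      _ = v := by rw [h3, one_mul]
  by_cases hxs : x ∈ A.sing
  · -- a cone point
    obtain ⟨k, hk, c, hsc, hcs, hreg, z0, hz0, hrel0, hrel1⟩ := hD.cone x hxs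
    have hk0 : k ≠ 0 := by omega
    have hrel : ∀ e ∈ A.atlas, ∀ p, p ∈ c.source → p ∈ e.source →
        ∃ a : ℝ, 0 < a ∧ ∃ b : ℂ, ∀ᶠ q in 𝓝 p, e q = (a : ℂ) * (c q) ^ k + b := by
      intro e he y hyc hye
      obtain ⟨a, ha, hab⟩ := hrel0 e he y hyc hye
      refine ⟨a, ha, R.o e + (a : ℂ) * z0, ?_⟩
      filter_upwards [hab] with q hq
      linear_combination hq
    have hzx : z0 = ((‖z0‖ : ℝ) : ℂ) * D x := by
      have h1 := (hrel1 x hsc).2
      rw [hcs, zero_pow hk0, add_zero] at h1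
      exact h1
    obtain ⟨ρ, hρ, hball⟩ : ∃ ρ > 0, Metric.ball (0 : ℂ) ρ ⊆ c.target := by
      have h1 : (0 : ℂ) ∈ c.target := by
        rw [← hcs]
        exact c.map_source hsc
      exact Metric.isOpen_iff.1 c.open_target 0 h1
    obtain ⟨T, hT⟩ : ∃ T : ℝ, T = ρ ^ k / 2 := ⟨_, rfl⟩
    have hρk : 0 < ρ ^ k := pow_pos hρ k
    have hT0 : 0 < T := by rw [hT]; positivity
    have hTρ : T < ρ ^ k := by rw [hT]; linarith
    obtain ⟨z1, hz1⟩ : ∃ z1 : ℂ, z1 = z0 + (T : ℂ) * v := ⟨_, rfl⟩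
    have hz10 : z1 ≠ 0 := by
      intro h0
      have h1 : z1 * (starRingEnd ℂ) v = ((‖z0‖ : ℝ) : ℂ) * (D x * (starRingEnd ℂ) v) + (T : ℂ) := by
        calc z1 * (starRingEnd ℂ) v = (z0 + (T : ℂ) * v) * (starRingEnd ℂ) v := by rw [hz1]
          _ = z0 * (starRingEnd ℂ) v + (T : ℂ) * (v * (starRingEnd ℂ) v) := by ring
          _ = (((‖z0‖ : ℝ) : ℂ) * D x) * (starRingEnd ℂ) v + (T : ℂ) := by rw [hvv, mul_one, ← hzx]
          _ = _ := by ring
      rw [h0, zero_mul] at h1
      have h2 := congrArg Complex.im h1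
      rw [Complex.add_im, Complex.im_ofReal_mul, Complex.ofReal_im, add_zero, Complex.zero_im] at h2
      rcases mul_eq_zero.1 h2.symm with h3 | h3
      · exact hz0 (norm_eq_zero.1 h3)
      · exact him h3
    obtain ⟨hlt, -⟩ := mono_key3 (z := z0) (w := z1) (d := D x) (d' := nz z1) hv hT0 hz1 hz0 hz10
      (hD.norm x) (nz_norm hz10) hzx (nz_mul hz10) him
    have hHc : ContinuousAt (fun z : ℂ => (nz z * (starRingEnd ℂ) v).re) z1 :=
      Complex.continuous_re.continuousAt.comp ((nz_continuousAt hz10).mul continuousAt_const)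
    have hzc : ContinuousAt (fun q : X => z0 + (c q) ^ k + (T : ℂ) * v) x :=
      (continuousAt_const.add ((c.continuousAt hsc).pow k)).add continuousAt_const
    have hzx1 : z0 + (c x) ^ k + (T : ℂ) * v = z1 := by
      rw [hcs, zero_pow hk0, add_zero, hz1]
    have ev1 : ∀ᶠ q in 𝓝 x, (D x * (starRingEnd ℂ) v).re <
        (nz (z0 + (c q) ^ k + (T : ℂ) * v) * (starRingEnd ℂ) v).re := by
      have h1 : Tendsto (fun q : X => z0 + (c q) ^ k + (T : ℂ) * v) (𝓝 x) (𝓝 z1) := by
        have := hzc.tendsto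
        rwa [hzx1] at this
      exact (hHc.tendsto.comp h1).eventually (lt_mem_nhds hlt)
    have hnc : ContinuousAt (fun q : X => ‖c q‖) x := (c.continuousAt hsc).norm
    have ev2 : ∀ᶠ q in 𝓝 x, ‖c q‖ < ρ := by
      refine hnc.eventually (gt_mem_nhds ?_)
      show ‖c x‖ < ρ
      rw [hcs, norm_zero]
      exact hρ
    have ev3 : ∀ᶠ q in 𝓝 x, ‖c q‖ ^ k + T < ρ ^ k := by
      refine ((hnc.pow k).add continuousAt_const).eventually (gt_mem_nhds ?_)
      show ‖c x‖ ^ k + T < ρ ^ k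
      rw [hcs, norm_zero, zero_pow hk0, zero_add]
      exact hTρ
    have ev4 : ∀ᶠ q in 𝓝 x, q ∈ c.source := c.open_source.mem_nhds hsc
    obtain ⟨q, ⟨h1, h2, h3, h4⟩, hqS⟩ :=
      mem_closure_iff_nhds.1 hxK _ (ev1.and (ev2.and (ev3.and ev4)))
    have hqS' : Reach A v p q := hqS
    have hqx : q ≠ x := by
      intro h0
      exact hqS'.right (h0 ▸ hxs)
    by_cases hpr : ∃ r : ℝ, 0 < r ∧ (c q) ^ k = -((r : ℂ) * v)
    · left
      obtain ⟨r, hr, hqr⟩ := hpr
      exact cone_end hv hxs hk hsc hcs hreg hrel hρ hball hqS' h4 h2 hr hqr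
    · exfalso
      obtain ⟨q', hq'c, hqq', hq'k⟩ := cone_move hv hk hsc hcs hreg hrel hρ hball h4 hqx hT0.le h3
        hpr
      have h5 : Reach A v p q' := hqS'.trans hqq'
      have h6 := hmax q' (subset_closure h5)
      obtain ⟨h7, h8⟩ := hrel1 q' hq'c
      have h9 : z0 + (c q') ^ k = z0 + (c q) ^ k + (T : ℂ) * v := by rw [hq'k]; ring
      rw [h9] at h7 h8
      have h10 : nz (z0 + (c q) ^ k + (T : ℂ) * v) = D q' := by
        have h11 : ((‖z0 + (c q) ^ k + (T : ℂ) * v‖ : ℝ) : ℂ) ≠ 0 :=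
          Complex.ofReal_ne_zero.mpr (norm_ne_zero_iff.mpr h7)
        unfold nz
        rw [div_eq_iff h11, mul_comm (D q')]
        exact h8
      rw [h10] at h1
      exact absurd h6 (not_le.2 h1)
  · -- a regular point
    exfalso
    obtain ⟨e, he, hxe⟩ := A.cover x hxs
    obtain ⟨δ, hδ, hsub⟩ := Metric.isOpen_iff.1 e.open_target (e x) (e.map_source hxe)
    have hball : e x + ((δ / 2 : ℝ) : ℂ) * v ∈ Metric.ball (e x) δ := by
      rw [Metric.mem_ball, dist_eq_norm, add_sub_cancel_left, norm_mul, hv, mul_one,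
        Complex.norm_real, Real.norm_of_nonneg (by positivity)]
      linarith
    have h4 : e (e.symm (e x + ((δ / 2 : ℝ) : ℂ) * v)) = e x + ((δ / 2 : ℝ) : ℂ) * v :=
      e.right_inv (hsub hball)
    have hseg : segment ℝ (e x) (e x + ((δ / 2 : ℝ) : ℂ) * v) ⊆ e.target :=
      ((convex_ball (e x) δ).segment_subset (Metric.mem_ball_self hδ) hball).trans hsub
    have hreach : Reach A v x (e.symm (e x + ((δ / 2 : ℝ) : ℂ) * v)) :=
      reach_segment he hxe (e.map_target (hsub hball)) (by positivity) h4 (by rw [h4]; exact hseg)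
    obtain ⟨h5, -⟩ := mono_reach hD hv hreach him
    rcases h5 with h5 | h5
    · have h6 := congrArg e h5
      rw [h4] at h6
      have h7 : ((δ / 2 : ℝ) : ℂ) * v = 0 := by
        linear_combination -h6
      have h8 : ((δ / 2 : ℝ) : ℂ) ≠ 0 := Complex.ofReal_ne_zero.2 (by positivity)
      exact mul_ne_zero h8 hv0 h7
    · exact absurd (hmax _ (closure_inv hxK hreach)) (not_le.2 h5)

end Pool.Agent.H56.AS
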