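import Pool.Agent.H56.AS.Defs

/-! The direction function of a radiant surface. -/

namespace Pool.Agent.H56.AS

open Set Filter Topology

variable {X : Type*} [TopologicalSpace X]

/-- The continuous function `D = z / |z|`. -/
structure DirData (A : AffineSurface X) (R : RadData A) (D : X → ℂ) : Prop where
  cont : Continuous D
  norm : ∀ p, ‖D p‖ = 1
  chart : ∀ e ∈ A.atlas, ∀ p ∈ e.source, e p - R.o e = ((‖e p - R.o e‖ : ℝ) : ℂ) * D p
  cone : ∀ s ∈ A.sing, ∃ k : ℕ, 2 ≤ k ∧ ∃ c : OpenPartialHomeomorph X ℂ, s ∈ c.source ∧ c s = 0 ∧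
    (∀ q ∈ c.source, q ≠ s → q ∉ A.sing) ∧ ∃ z0 : ℂ, z0 ≠ 0 ∧
    (∀ e ∈ A.atlas, ∀ p, p ∈ c.source → p ∈ e.source →
      ∃ a : ℝ, 0 < a ∧ ∀ᶠ q in 𝓝 p, e q - R.o e = (a : ℂ) * (z0 + (c q) ^ k)) ∧
    ∀ q ∈ c.source, z0 + (c q) ^ k ≠ 0 ∧ z0 + (c q) ^ k = ((‖z0 + (c q) ^ k‖ : ℝ) : ℂ) * D q

/-- `z / |z|`. -/
noncomputable def nz (z : ℂ) : ℂ := z / ((‖z‖ : ℝ) : ℂ)

lemma nz_norm {z : ℂ} (hz : z ≠ 0) : ‖nz z‖ = 1 := by
  unfold nz
  rw [norm_div, Complex.norm_real, norm_norm, div_self (norm_ne_zero_iff.mpr hz)]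

lemma nz_mul {z : ℂ} (hz : z ≠ 0) : z = ((‖z‖ : ℝ) : ℂ) * nz z := by
  unfold nz
  have h : ((‖z‖ : ℝ) : ℂ) ≠ 0 := Complex.ofReal_ne_zero.mpr (norm_ne_zero_iff.mpr hz)
  field_simp

lemma nz_smul {a : ℝ} (ha : 0 < a) (z : ℂ) : nz ((a : ℂ) * z) = nz z := by
  unfold nz
  have h : (a : ℂ) ≠ 0 := Complex.ofReal_ne_zero.mpr ha.ne'
  rw [norm_mul, Complex.norm_real, Real.norm_of_nonneg ha.le, Complex.ofReal_mul,
    mul_div_mul_left _ _ h]

lemma nz_continuousAt {z : ℂ} (hz : z ≠ 0) : ContinuousAt nz z := by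
  unfold nz
  refine ContinuousAt.div continuousAt_id ?_ (Complex.ofReal_ne_zero.mpr (norm_ne_zero_iff.mpr hz))
  exact (Complex.continuous_ofReal.comp continuous_norm).continuousAt

theorem exists_dir (A : AffineSurface X) (R : RadData A) : ∃ D : X → ℂ, DirData A R D := by
  classical
  choose k hk c hcs hc0 hcq z0 hz0 hz using R.cn
  choose e he hpe using A.cover
  obtain ⟨D, hDdef⟩ : ∃ D : X → ℂ, D = fun p => if hs : p ∈ A.sing then nz (z0 p hs)
    else nz (e p hs p - R.o (e p hs)) := ⟨_, rfl⟩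
  have hDs : ∀ p (hs : p ∈ A.sing), D p = nz (z0 p hs) := by
    intro p hs
    rw [hDdef]
    exact dif_pos hs
  have hDe : ∀ e' ∈ A.atlas, ∀ p ∈ e'.source, D p = nz (e' p - R.o e') := by
    intro e' he' p hp
    have hs : p ∉ A.sing := A.regular e' he' p hp
    have h1 : D p = nz (e p hs p - R.o (e p hs)) := by
      rw [hDdef]
      exact dif_neg hs
    obtain ⟨a, ha, h2⟩ := R.tr (e p hs) (he p hs) e' he' p (hpe p hs) hp
    rw [h1, h2.self_of_nhds, nz_smul ha]
  have hcone : ∀ s (hs : s ∈ A.sing), ∀ q ∈ (c s hs).source,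
      z0 s hs + (c s hs q) ^ (k s hs) ≠ 0 ∧ D q = nz (z0 s hs + (c s hs q) ^ (k s hs)) := by
    intro s hs q hq
    by_cases hqs : q = s
    · subst hqs
      have hk0 : k q hs ≠ 0 := by
        have := hk q hs
        omega
      rw [hc0, zero_pow hk0, add_zero]
      exact ⟨hz0 q hs, hDs q hs⟩
    · have hqr : q ∉ A.sing := hcq s hs q hq hqs
      obtain ⟨a, ha, h2⟩ := hz s hs (e q hqr) (he q hqr) q hq (hpe q hqr)
      have h3 := h2.self_of_nhds
      have h4 := R.ne (e q hqr) (he q hqr) q (hpe q hqr)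
      have h5 := hDe (e q hqr) (he q hqr) q (hpe q hqr)
      rw [h3] at h4 h5
      rw [nz_smul ha] at h5
      exact ⟨fun h6 => h4 (by rw [h6, mul_zero]), h5⟩
  refine ⟨D, ?_, ?_, ?_, ?_⟩
  · rw [continuous_iff_continuousAt]
    intro p
    by_cases hs : p ∈ A.sing
    · have hp := hcs p hs
      have h0 : ContinuousAt (fun q => z0 p hs + (c p hs q) ^ (k p hs)) p :=
        continuousAt_const.add (((c p hs).continuousAt hp).pow _)
      have h1 : ContinuousAt (fun q => nz (z0 p hs + (c p hs q) ^ (k p hs))) p :=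
        ContinuousAt.comp (g := nz) (f := fun q => z0 p hs + (c p hs q) ^ (k p hs))
          (nz_continuousAt (hcone p hs p hp).1) h0
      refine h1.congr ?_
      filter_upwards [(c p hs).open_source.mem_nhds hp] with q hq
      exact ((hcone p hs q hq).2).symm
    · have hp := hpe p hs
      have h0 : ContinuousAt (fun q => e p hs q - R.o (e p hs)) p :=
        ((e p hs).continuousAt hp).sub continuousAt_const
      have h1 : ContinuousAt (fun q => nz (e p hs q - R.o (e p hs))) p :=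
        ContinuousAt.comp (g := nz) (f := fun q => e p hs q - R.o (e p hs))
          (nz_continuousAt (R.ne _ (he p hs) p hp)) h0
      refine h1.congr ?_
      filter_upwards [(e p hs).open_source.mem_nhds hp] with q hq
      exact (hDe _ (he p hs) q hq).symm
  · intro p
    by_cases hs : p ∈ A.sing
    · rw [hDs p hs]
      exact nz_norm (hz0 p hs)
    · rw [hDe _ (he p hs) p (hpe p hs)]
      exact nz_norm (R.ne _ (he p hs) p (hpe p hs))
  · intro e' he' p hp
    rw [hDe e' he' p hp]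
    exact nz_mul (R.ne e' he' p hp)
  · intro s hs
    refine ⟨k s hs, hk s hs, c s hs, hcs s hs, hc0 s hs, hcq s hs, z0 s hs, hz0 s hs, hz s hs, ?_⟩
    intro q hq
    obtain ⟨h1, h2⟩ := hcone s hs q hq
    refine ⟨h1, ?_⟩
    rw [h2]
    exact nz_mul h1

end Pool.Agent.H56.AS
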