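import Pool.Agent.H56.AS.Kplus
import Pool.Agent.H56.AS.Dicho
import Pool.Agent.H56.AS.Count

/-! Radiant affine surfaces: all but countably many directions are hyperbolic. -/

namespace Pool.Agent.H56.AS

open Set Filter Topology

variable {X : Type*} [TopologicalSpace X]

theorem leaf_neg {A : AffineSurface X} {v : ℂ} {p : X} : leaf A (-v) p = leaf A v p := by
  have h1 : ∀ a b : X, Reach A (-v) a b ↔ Reach A v b a := fun a b => reach_neg
  ext q
  simp only [leaf, mem_setOf_eq, h1]
  exact or_comm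

theorem fin_aux {A : AffineSurface X} {v : ℂ} {p x y : X}
    (hx : x ∈ closure {q | Reach A v p q})
    (hsub : {q | Reach A v y q} ⊆ closure {q | Reach A v x q}) :
    closedLeaf A v y ⊆ closure (leaf A v p) := by
  have h1 : closure {q | Reach A v x q} ⊆ closure {q | Reach A v p q} :=
    closure_minimal (fun q hq => closure_inv hx hq) isClosed_closure
  have h2 : closure {q | Reach A v p q} ⊆ closure (leaf A v p) :=
    closure_mono (fun q hq => Or.inl hq)
  exact fun q hq => h2 (h1 (hsub hq.1))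

theorem eq_or_neg {d v : ℂ} (hd : ‖d‖ = 1) (hv : ‖v‖ = 1)
    (h : (d * (starRingEnd ℂ) v).im = 0) : d = v ∨ d = -v := by
  have hvv : (starRingEnd ℂ) v * v = 1 := by
    rw [Complex.conj_mul', hv]; simp
  set w : ℂ := d * (starRingEnd ℂ) v with hw
  have hwn : ‖w‖ = 1 := by
    rw [hw, norm_mul, hd, one_mul, RCLike.norm_conj, hv]
  have hwr : w = (w.re : ℂ) := by
    apply Complex.ext
    · simp
    · simpa using h
  have hab : |w.re| = 1 := by
    rw [hwr, Complex.norm_real, Real.norm_eq_abs] at hwn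
    exact hwn
  have hdw : d = w * v := by
    rw [hw, mul_assoc, hvv, mul_one]
  rcases (abs_eq (by norm_num : (0 : ℝ) ≤ 1)).1 hab with h1 | h1
  · left
    rw [hdw, hwr, h1]; simp
  · right
    rw [hdw, hwr, h1]; simp

/-- A direction without saddle connections in which no singular point is radial is hyperbolic. -/
theorem hyperbolic_of_no_saddle [CompactSpace X] [T2Space X] {A : AffineSurface X}
    {R : RadData A} {D : X → ℂ} (hD : DirData A R D) {v : ℂ} (hv : ‖v‖ = 1)
    (hs : ∀ s ∈ A.sing, D s ≠ v) (hs' : ∀ s ∈ A.sing, D s ≠ -v)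
    (hsad : ∀ p, p ∉ A.sing → ¬ (FwdSing A v p ∧ FwdSing A (-v) p)) : HyperbolicDir A v := by
  have hv' : ‖-v‖ = 1 := by rw [norm_neg]; exact hv
  obtain ⟨F1, hF1, hc1, hk1⟩ := kplus hD hv hs
  obtain ⟨F2, hF2, hc2, hk2⟩ := kplus hD hv' hs'
  have key1 : ∀ p x, x ∈ closure {q | Reach A v p q} → D x = v →
      ∃ y ∈ F1 ∪ F2, closedLeaf A v y ⊆ closure (leaf A v p) := by
    intro p x hx hxv
    obtain ⟨y, hy, hsub⟩ := hk1 x hxv
    exact ⟨y, Or.inl hy, fin_aux hx hsub⟩
  have key2 : ∀ p x, x ∈ closure {q | Reach A (-v) p q} → D x = -v →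
      ∃ y ∈ F1 ∪ F2, closedLeaf A v y ⊆ closure (leaf A v p) := by
    intro p x hx hxv
    obtain ⟨y, hy, hsub⟩ := hk2 x hxv
    refine ⟨y, Or.inr hy, ?_⟩
    have := fin_aux hx hsub
    rwa [closedLeaf_neg, leaf_neg] at this
  refine ⟨F1 ∪ F2, hF1.union hF2, ?_, ?_⟩
  · rintro y (hy | hy)
    · exact hc1 y hy
    · exact closedHyp_neg (hc2 y hy)
  · intro p hp
    by_cases him : (D p * (starRingEnd ℂ) v).im = 0
    · rcases eq_or_neg (hD.norm p) hv him with h | h
      · exact key1 p p (subset_closure (Reach.refl hp)) h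
      · exact key2 p p (subset_closure (Reach.refl hp)) h
    · have him' : (D p * (starRingEnd ℂ) (-v)).im ≠ 0 := by
        rw [map_neg, mul_neg, Complex.neg_im]
        exact neg_ne_zero.2 him
      rcases dicho hD hv hs hp him with h1 | ⟨x, hx, hxc⟩
      · rcases dicho hD hv' hs' hp him' with h2 | ⟨x, hx, hxc⟩
        · exact absurd ⟨h1, h2⟩ (hsad p hp)
        · exact key2 p x hxc hx
      · exact key1 p x hxc hx

theorem countable_nonhyperbolic [CompactSpace X] [T2Space X] (A : AffineSurface X)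
    (h : Radiant A) : {v : ℂ | ‖v‖ = 1 ∧ ¬ HyperbolicDir A v}.Countable := by
  obtain ⟨R⟩ := h
  obtain ⟨D, hD⟩ := exists_dir A R
  have h1 := saddle_countable A R
  have h2 : (D '' A.sing).Countable := (A.sing_finite.image D).countable
  have h3 : ((fun z : ℂ => -z) '' (D '' A.sing)).Countable := h2.image _
  refine ((h1.union h2).union h3).mono ?_
  rintro v ⟨hv, hnh⟩
  by_contra hcon
  apply hnh
  simp only [mem_union, not_or] at hcon
  obtain ⟨⟨hc1, hc2⟩, hc3⟩ := hcon
  refine hyperbolic_of_no_saddle hD hv ?_ ?_ ?_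
  · intro s hs hsv
    exact hc2 ⟨s, hs, hsv⟩
  · intro s hs hsv
    exact hc3 ⟨D s, ⟨s, hs, rfl⟩, by simp [hsv]⟩
  · intro p hp hpp
    exact hc1 ⟨hv, p, hp, hpp.1, hpp.2⟩

end Pool.Agent.H56.AS
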