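import Pool.Agent.H56.AS.Mono
import Pool.Agent.H56.AS.Basic
import Pool.Agent.H56.AS.Inv

/-! The level set `D = v` consists of closed leaves. -/

namespace Pool.Agent.H56.AS

open Set Filter Topology

variable {X : Type*} [TopologicalSpace X]

theorem kplus_ls {A : AffineSurface X} {R : RadData A} {D : X → ℂ}
    (hD : DirData A R D) {v : ℂ} (hv : ‖v‖ = 1) (hs : ∀ s ∈ A.sing, D s ≠ v) {x : X} (hx : D x = v) :
    ∃ e ∈ A.atlas, ∃ x' ∈ e.source, D x' = v ∧ Reach A v x x' ∧ ∃ V ∈ 𝓝 x, ∀ q ∈ V, q ∈ e.source ∧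
      (D q = v → Cont A v e q e x' 1 ∧ ‖e q - R.o e‖ < ‖e x' - R.o e‖) := by
  have hxs : x ∉ A.sing := fun h => hs x h hx
  obtain ⟨e, he, hxe⟩ := A.cover x hxs
  obtain ⟨ε, hε, hball⟩ := Metric.isOpen_iff.1 e.open_target (e x) (e.map_source hxe)
  have hnv : ‖((ε / 2 : ℝ) : ℂ) * v‖ = ε / 2 := by
    rw [norm_mul, hv, mul_one, Complex.norm_real, Real.norm_of_nonneg (by linarith)]
  have hmem : e x + ((ε / 2 : ℝ) : ℂ) * v ∈ Metric.ball (e x) ε := by
    rw [Metric.mem_ball, dist_eq_norm, add_sub_cancel_left, hnv]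
    linarith
  obtain ⟨x', hx'⟩ : ∃ x', x' = e.symm (e x + ((ε / 2 : ℝ) : ℂ) * v) := ⟨_, rfl⟩
  have hx's : x' ∈ e.source := by
    rw [hx']
    exact e.map_target (hball hmem)
  have hex' : e x' = e x + ((ε / 2 : ℝ) : ℂ) * v := by
    rw [hx']
    exact e.right_inv (hball hmem)
  have hc : Cont A v e x e x' 1 := by
    refine Cont.move e x e x 1 x' (ε / 2) (Cont.refl e x he hxe) hx's (by linarith) hex' ?_
    rw [hex']
    exact ((convex_ball (e x) ε).segment_subset (Metric.mem_ball_self hε) hmem).trans hball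
  have hDx' := (cont_ray hD hv hc hx).1
  refine ⟨e, he, x', hx's, hDx', ⟨e, e, 1, hc⟩, e.source ∩ e ⁻¹' Metric.ball (e x) (ε / 4),
    inter_mem (e.open_source.mem_nhds hxe) ((e.continuousAt hxe).preimage_mem_nhds
      (Metric.ball_mem_nhds _ (by linarith))), ?_⟩
  rintro q ⟨hqe, hqb⟩
  refine ⟨hqe, fun hDq => ?_⟩
  have hqb' : ‖e q - e x‖ < ε / 4 := by
    have := Metric.mem_ball.1 (mem_preimage.1 hqb)
    rwa [dist_eq_norm] at this
  have z1 := hD.chart e he x hxe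
  have z2 := hD.chart e he x' hx's
  have z3 := hD.chart e he q hqe
  rw [hx] at z1
  rw [hDx'] at z2
  rw [hDq] at z3
  have n2 : ‖e x' - R.o e‖ = ‖e x - R.o e‖ + ε / 2 := by
    have h1 : e x' - R.o e = ((‖e x - R.o e‖ + ε / 2 : ℝ) : ℂ) * v := by
      have h2 : e x' - R.o e = (e x - R.o e) + ((ε / 2 : ℝ) : ℂ) * v := by rw [hex']; ring
      rw [h2]
      conv_lhs => rw [z1]
      push_cast
      ring
    have h3 := congrArg norm h1
    rw [norm_mul, hv, mul_one, Complex.norm_real, Real.norm_of_nonneg (by positivity)] at h3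
    exact h3
  have n3 : ‖e q - R.o e‖ < ‖e x - R.o e‖ + ε / 4 := by
    have h1 : ‖e q - R.o e‖ ≤ ‖e q - e x‖ + ‖e x - R.o e‖ := norm_sub_le_norm_sub_add_norm_sub _ _ _
    linarith
  have hτ : 0 < ‖e x' - R.o e‖ - ‖e q - R.o e‖ := by linarith
  refine ⟨?_, by linarith⟩
  refine Cont.move e q e q 1 x' (‖e x' - R.o e‖ - ‖e q - R.o e‖) (Cont.refl e q he hqe) hx's hτ ?_ ?_
  · have h1 : e x' = (e x' - R.o e) + R.o e := by ring
    have h2 : e q = (e q - R.o e) + R.o e := by ring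
    rw [h1, h2, z2, z3]
    have h4 : ‖((‖e x' - R.o e‖ : ℝ) : ℂ) * v + R.o e - R.o e‖ = ‖e x' - R.o e‖ := by
      rw [add_sub_cancel_right, norm_mul, hv, mul_one, Complex.norm_real, norm_norm]
    have h5 : ‖((‖e q - R.o e‖ : ℝ) : ℂ) * v + R.o e - R.o e‖ = ‖e q - R.o e‖ := by
      rw [add_sub_cancel_right, norm_mul, hv, mul_one, Complex.norm_real, norm_norm]
    rw [h4, h5]
    push_cast
    ring
  · have hqB : e q ∈ Metric.ball (e x) ε := by
      rw [Metric.mem_ball, dist_eq_norm]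
      linarith
    have hxB : e x' ∈ Metric.ball (e x) ε := by
      rw [hex']
      exact hmem
    exact ((convex_ball (e x) ε).segment_subset hqB hxB).trans hball

theorem kplus_loop [CompactSpace X] [T2Space X] {A : AffineSurface X} {R : RadData A} {D : X → ℂ}
    (hD : DirData A R D) {v : ℂ} (hv : ‖v‖ = 1) (hs : ∀ s ∈ A.sing, D s ≠ v) {x : X} (hx : D x = v) :
    ∃ y ∈ closure {r | Reach A v x r}, D y = v ∧ ClosedHyp A v y := by
  have hKc : IsClosed {z : X | D z = v} := isClosed_eq hD.cont continuous_const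
  obtain ⟨SS, hSS⟩ : ∃ SS : Set (Set X), SS = {M | IsClosed M ∧ M.Nonempty ∧ M ⊆ {z : X | D z = v} ∧
      ∀ m ∈ M, ∀ r, Reach A v m r → r ∈ M} := ⟨_, rfl⟩
  have hray : ∀ z, D z = v → closure {r | Reach A v z r} ∈ SS := by
    intro z hz
    rw [hSS]
    refine ⟨isClosed_closure, ⟨z, subset_closure (Reach.refl (fun h => hs z h hz))⟩, ?_, ?_⟩
    · refine hKc.closure_subset_iff.2 ?_
      rintro r ⟨e, e', l, hc⟩
      exact (cont_ray hD hv hc hz).1
    · intro m hm r hr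
      exact closure_inv hm hr
  obtain ⟨M, hMx, hMmin⟩ := zorn_superset_nonempty SS (by
    intro c hc hchain hne
    refine ⟨⋂₀ c, ?_, fun s hs => sInter_subset_of_mem hs⟩
    rw [hSS]
    have hcl : ∀ U ∈ c, IsClosed U := fun U hU => by
      have := hc hU
      rw [hSS] at this
      exact this.1
    refine ⟨isClosed_sInter hcl, ?_, ?_, ?_⟩
    · have := hne.to_subtype
      refine IsCompact.nonempty_sInter_of_directed_nonempty_isCompact_isClosed ?_ ?_
        (fun U hU => (hcl U hU).isCompact) hcl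
      · intro U hU W hW
        rcases hchain.total hU hW with h | h
        · exact ⟨U, hU, Subset.rfl, h⟩
        · exact ⟨W, hW, h, Subset.rfl⟩
      · intro U hU
        have := hc hU
        rw [hSS] at this
        exact this.2.1
    · obtain ⟨U, hU⟩ := hne
      have := hc hU
      rw [hSS] at this
      exact (sInter_subset_of_mem hU).trans this.2.2.1
    · intro m hm r hr U hU
      have := hc hU
      rw [hSS] at this
      exact this.2.2.2 m (hm U hU) r hr) _ (hray x hx)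
  have hM := hMmin.prop
  rw [hSS] at hM
  obtain ⟨hMc, ⟨m, hm⟩, hMK, hMi⟩ := hM
  have hDm : D m = v := hMK hm
  obtain ⟨e, he, m', hm's, hDm', hmm', V, hV, hVq⟩ := kplus_ls hD hv hs hDm
  have hm'M : m' ∈ M := hMi m hm m' hmm'
  have hsub : closure {r | Reach A v m' r} ⊆ M := hMc.closure_subset_iff.2 fun r hr => hMi m' hm'M r hr
  have hsup : M ⊆ closure {r | Reach A v m' r} := hMmin.le_of_le (hray m' hDm') hsub
  obtain ⟨q, hqV, hq⟩ := mem_closure_iff_nhds.1 (hsup hm) V hV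
  obtain ⟨hqe, hq2⟩ := hVq q hqV
  have hq' : Reach A v m' q := hq
  have hDq : D q = v := by
    obtain ⟨e1, e2, l, hc⟩ := hq'
    exact (cont_ray hD hv hc hDm').1
  obtain ⟨hc1, hlt⟩ := hq2 hDq
  obtain ⟨e1, e2, l, hc⟩ := hq'
  obtain ⟨l1, hc2⟩ := hc.start he hm's
  obtain ⟨l2, hc3⟩ := hc2.finish he hqe
  have hl := (cont_ray hD hv hc3 hDm').2
  refine ⟨m', hMx hm'M, hDm', e, 1 * l2, ?_, hc3.comp hc1⟩
  intro h1
  rw [one_mul] at h1
  rw [h1, one_mul] at hl
  linarith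

theorem kplus [CompactSpace X] [T2Space X] {A : AffineSurface X} {R : RadData A} {D : X → ℂ}
    (hD : DirData A R D) {v : ℂ} (hv : ‖v‖ = 1) (hs : ∀ s ∈ A.sing, D s ≠ v) :
    ∃ F : Set X, F.Finite ∧ (∀ y ∈ F, ClosedHyp A v y) ∧
      ∀ p, D p = v → ∃ y ∈ F, {q | Reach A v y q} ⊆ closure {q | Reach A v p q} := by
  classical
  have hKc : IsClosed {z : X | D z = v} := isClosed_eq hD.cont continuous_const
  have hex : ∀ x : X, x ∈ {z : X | D z = v} → ∃ (y : X) (V : Set X), V ∈ 𝓝 x ∧ ClosedHyp A v y ∧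
      ∀ q ∈ V, D q = v → {r | Reach A v y r} ⊆ closure {r | Reach A v q r} := by
    intro x hx
    obtain ⟨e, he, x', hx's, hDx', hxx', V, hV, hVq⟩ := kplus_ls hD hv hs hx
    obtain ⟨y, hy, hDy, hcy⟩ := kplus_loop hD hv hs hDx'
    refine ⟨y, V, hV, hcy, fun q hq hDq r hr => ?_⟩
    have h1 : r ∈ closure {r | Reach A v x' r} := closure_inv hy hr
    have h2 : Reach A v q x' := ⟨e, e, 1, ((hVq q hq).2 hDq).1⟩
    exact closure_mono (fun s hs => Reach.trans h2 hs) h1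
  choose! y V hV hy hq using hex
  obtain ⟨t, ht, hcov⟩ := hKc.isCompact.elim_nhds_subcover V hV
  refine ⟨y '' (t : Set X), t.finite_toSet.image y, ?_, ?_⟩
  · rintro _ ⟨x, hx, rfl⟩
    exact hy x (ht x hx)
  · intro p hp
    obtain ⟨x, hx, hpx⟩ := mem_iUnion₂.1 (hcov hp)
    exact ⟨y x, ⟨x, hx, rfl⟩, hq x (ht x hx) p hpx hp⟩

end Pool.Agent.H56.AS
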