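import Pool.Agent.H56.AS.Dir

/-! Monotonicity of the argument along the leaves. -/

namespace Pool.Agent.H56.AS

open Set Filter Topology

variable {X : Type*} [TopologicalSpace X]

theorem mono_key1 {a1 b1 a2 b2 : ℝ} (h1 : a1 ^ 2 + b1 ^ 2 = 1) (h2 : a2 ^ 2 + b2 ^ 2 = 1)
    (hb1 : 0 < b1) (hb2 : 0 < b2) (h : a1 * b2 < a2 * b1) : a1 < a2 := by
  by_contra hc
  push Not at hc
  rcases le_or_gt 0 a2 with h3 | h3
  · have h4 : b1 ≤ b2 := by
      by_contra h5
      push Not at h5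
      nlinarith
    nlinarith
  · rcases le_or_gt a1 0 with h4 | h4
    · have h5 : b2 ≤ b1 := by
        by_contra h6
        push Not at h6
        nlinarith
      nlinarith
    · nlinarith [mul_pos h4 hb2, mul_pos (neg_pos.2 h3) hb1]

theorem mono_key2 {a1 b1 a2 b2 K L t : ℝ} (h1 : a1 ^ 2 + b1 ^ 2 = 1) (h2 : a2 ^ 2 + b2 ^ 2 = 1)
    (hK : 0 < K) (hL : 0 < L) (ht : 0 < t) (hre : K * a1 + t = L * a2) (him : K * b1 = L * b2)
    (hb : b1 ≠ 0) : a1 < a2 ∧ 0 < b1 * b2 := by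
  have main : ∀ c1 c2 : ℝ, a1 ^ 2 + c1 ^ 2 = 1 → a2 ^ 2 + c2 ^ 2 = 1 → K * c1 = L * c2 → 0 < c1 →
      a1 < a2 ∧ 0 < c1 * c2 := by
    intro c1 c2 g1 g2 g3 g4
    have g5 : 0 < L * c2 := by rw [← g3]; exact mul_pos hK g4
    have g6 : 0 < c2 := (mul_pos_iff_of_pos_left hL).1 g5
    refine ⟨mono_key1 g1 g2 g4 g6 ?_, mul_pos g4 g6⟩
    have g7 : L * (a1 * c2) < L * (a2 * c1) := by
      have e1 : L * (a1 * c2) = a1 * (K * c1) := by rw [g3]; ring
      have e2 : L * (a2 * c1) = (K * a1 + t) * c1 := by rw [hre]; ring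
      rw [e1, e2]
      nlinarith [mul_pos ht g4]
    exact lt_of_mul_lt_mul_left g7 hL.le
  rcases lt_or_gt_of_ne hb with h | h
  · have := main (-b1) (-b2) (by rw [neg_sq]; exact h1) (by rw [neg_sq]; exact h2) (by linarith)
      (by linarith)
    rwa [neg_mul_neg] at this
  · exact main b1 b2 h1 h2 him h

/-- one move along a segment in the direction `v` -/
theorem mono_key3 {z w v d d' : ℂ} {t : ℝ} (hv : ‖v‖ = 1) (ht : 0 < t) (hw : w = z + (t : ℂ) * v)
    (hz0 : z ≠ 0) (hw0 : w ≠ 0) (hd : ‖d‖ = 1) (hd' : ‖d'‖ = 1) (hz : z = ((‖z‖ : ℝ) : ℂ) * d)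
    (hwd : w = ((‖w‖ : ℝ) : ℂ) * d') (him : (d * (starRingEnd ℂ) v).im ≠ 0) :
    (d * (starRingEnd ℂ) v).re < (d' * (starRingEnd ℂ) v).re ∧
      0 < (d * (starRingEnd ℂ) v).im * (d' * (starRingEnd ℂ) v).im := by
  have hvv : v * (starRingEnd ℂ) v = 1 := by
    rw [Complex.mul_conj, Complex.normSq_eq_norm_sq, hv]
    simp
  have hn : ∀ x : ℂ, ‖x‖ = 1 →
      (x * (starRingEnd ℂ) v).re ^ 2 + (x * (starRingEnd ℂ) v).im ^ 2 = 1 := by
    intro x hx
    have h1 : ‖x * (starRingEnd ℂ) v‖ = 1 := by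
      rw [norm_mul, RCLike.norm_conj, hx, hv, one_mul]
    have h2 : Complex.normSq (x * (starRingEnd ℂ) v) = 1 := by
      rw [Complex.normSq_eq_norm_sq, h1, one_pow]
    rw [Complex.normSq_apply] at h2
    nlinarith
  have e : ((‖z‖ : ℝ) : ℂ) * (d * (starRingEnd ℂ) v) + (t : ℂ)
      = ((‖w‖ : ℝ) : ℂ) * (d' * (starRingEnd ℂ) v) := by
    rw [← mul_assoc, ← mul_assoc, ← hz, ← hwd]
    calc z * (starRingEnd ℂ) v + (t : ℂ) = z * (starRingEnd ℂ) v + (t : ℂ) * (v * (starRingEnd ℂ) v) := by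
          rw [hvv, mul_one]
      _ = (z + (t : ℂ) * v) * (starRingEnd ℂ) v := by ring
      _ = w * (starRingEnd ℂ) v := by rw [← hw]
  have hre := congrArg Complex.re e
  have him' := congrArg Complex.im e
  rw [Complex.add_re, Complex.re_ofReal_mul, Complex.re_ofReal_mul, Complex.ofReal_re] at hre
  rw [Complex.add_im, Complex.im_ofReal_mul, Complex.im_ofReal_mul, Complex.ofReal_im,
    add_zero] at him'
  exact mono_key2 (hn d hd) (hn d' hd') (norm_pos_iff.2 hz0) (norm_pos_iff.2 hw0) ht hre him' him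

theorem cont_atlas_right {A : AffineSurface X} {v : ℂ} {e : OpenPartialHomeomorph X ℂ} {p : X}
    {e' : OpenPartialHomeomorph X ℂ} {q : X} {l : ℝ} (h : Cont A v e p e' q l) :
    e' ∈ A.atlas ∧ q ∈ e'.source := by
  induction h with
  | refl he hp => exact ⟨he, hp⟩
  | move e' q l r t h hr ht hqr hs ih => exact ⟨ih.1, hr⟩
  | change e' q l e'' a b h he hq ha hab ih => exact ⟨he, hq⟩

theorem mono_cont {A : AffineSurface X} {R : RadData A} {D : X → ℂ} (hD : DirData A R D)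
    {v : ℂ} (hv : ‖v‖ = 1) {e : OpenPartialHomeomorph X ℂ} {p : X}
    {e' : OpenPartialHomeomorph X ℂ} {q : X} {l : ℝ} (h : Cont A v e p e' q l)
    (hp : (D p * (starRingEnd ℂ) v).im ≠ 0) :
    (p = q ∨ (D p * (starRingEnd ℂ) v).re < (D q * (starRingEnd ℂ) v).re) ∧
      0 < (D p * (starRingEnd ℂ) v).im * (D q * (starRingEnd ℂ) v).im := by
  induction h with
  | refl he hp' => exact ⟨Or.inl rfl, mul_self_pos.2 hp⟩
  | move e' q l r t h hr ht hqr hs ih =>
    obtain ⟨h1, h2⟩ := ih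
    obtain ⟨hA, hq⟩ := cont_atlas_right h
    have hq0 : (D q * (starRingEnd ℂ) v).im ≠ 0 := by
      intro h0
      rw [h0, mul_zero] at h2
      exact lt_irrefl _ h2
    obtain ⟨h3, h4⟩ := mono_key3 (z := e' q - R.o e') (w := e' r - R.o e') (d := D q) (d' := D r)
      hv ht (by rw [hqr]; ring) (R.ne e' hA q hq) (R.ne e' hA r hr) (hD.norm q) (hD.norm r)
      (hD.chart e' hA q hq) (hD.chart e' hA r hr) hq0
    refine ⟨Or.inr ?_, ?_⟩
    · rcases h1 with h1 | h1
      · rw [h1]; exact h3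
      · exact h1.trans h3
    · have h5 := mul_pos h2 h4
      have h6 : 0 < (D q * (starRingEnd ℂ) v).im ^ 2 *
          ((D p * (starRingEnd ℂ) v).im * (D r * (starRingEnd ℂ) v).im) := by
        nlinarith
      exact (mul_pos_iff_of_pos_left (by positivity)).1 h6
  | change e' q l e'' a b h he hq ha hab ih => exact ih

theorem mono_reach {A : AffineSurface X} {R : RadData A} {D : X → ℂ} (hD : DirData A R D)
    {v : ℂ} (hv : ‖v‖ = 1) {p q : X} (h : Reach A v p q)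
    (hp : (D p * (starRingEnd ℂ) v).im ≠ 0) :
    (p = q ∨ (D p * (starRingEnd ℂ) v).re < (D q * (starRingEnd ℂ) v).re) ∧
      0 < (D p * (starRingEnd ℂ) v).im * (D q * (starRingEnd ℂ) v).im := by
  obtain ⟨e, e', l, h⟩ := h
  exact mono_cont hD hv h hp

/-- the linear part of a change of charts is unique -/
theorem lin_unique {e' : OpenPartialHomeomorph X ℂ} {q : X} (hq : q ∈ e'.source) {a a' : ℝ}
    {b b' : ℂ} (h : ∀ᶠ x in 𝓝 q, (a : ℂ) * e' x + b = (a' : ℂ) * e' x + b') : a = a' := by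
  by_contra hne
  have h1 : ∀ᶠ z in 𝓝 (e' q), (a : ℂ) * z + b = (a' : ℂ) * z + b' := by
    rw [← e'.map_nhds_eq hq]
    exact h
  have hne' : (a : ℂ) - (a' : ℂ) ≠ 0 := by
    rw [sub_ne_zero]
    exact fun h2 => hne (Complex.ofReal_injective h2)
  have h2 : ∀ᶠ z in 𝓝 (e' q), z = (b' - b) / ((a : ℂ) - (a' : ℂ)) := by
    filter_upwards [h1] with z hz
    rw [eq_div_iff hne']
    linear_combination hz
  have h3 : (b' - b) / ((a : ℂ) - (a' : ℂ)) = e' q := h2.self_of_nhds.symm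
  have h4 : ∀ᶠ z in 𝓝[≠] (e' q), z = e' q := by
    rw [h3] at h2
    exact h2.filter_mono nhdsWithin_le_nhds
  have h5 : ∀ᶠ z in 𝓝[≠] (e' q), z ≠ e' q := self_mem_nhdsWithin
  obtain ⟨z, hz1, hz2⟩ := (h4.and h5).exists
  exact hz2 hz1

/-- along a leaf in the ray of direction `v` the charts grow relative to the linear part -/
theorem cont_ray {A : AffineSurface X} {R : RadData A} {D : X → ℂ} (hD : DirData A R D)
    {v : ℂ} (hv : ‖v‖ = 1) {e : OpenPartialHomeomorph X ℂ} {p : X}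
    {e' : OpenPartialHomeomorph X ℂ} {q : X} {l : ℝ} (h : Cont A v e p e' q l)
    (hp : D p = v) : D q = v ∧ l * ‖e p - R.o e‖ ≤ ‖e' q - R.o e'‖ := by
  induction h with
  | refl he hp' => exact ⟨hp, by rw [one_mul]⟩
  | move e' q l r t h hr ht hqr hs ih =>
    obtain ⟨h1, h2⟩ := ih
    obtain ⟨hA, hq⟩ := cont_atlas_right h
    have h3 := hD.chart e' hA q hq
    rw [h1] at h3
    have hpos : 0 < ‖e' q - R.o e'‖ + t := by
      have := norm_nonneg (e' q - R.o e')
      linarith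
    have h4 : e' r - R.o e' = ((‖e' q - R.o e'‖ + t : ℝ) : ℂ) * v := by
      have : e' r - R.o e' = (e' q - R.o e') + (t : ℂ) * v := by rw [hqr]; ring
      rw [this]
      rw [Complex.ofReal_add, add_mul, ← h3]
    have h5 : ‖e' r - R.o e'‖ = ‖e' q - R.o e'‖ + t := by
      rw [h4, norm_mul, hv, mul_one, Complex.norm_real, Real.norm_eq_abs, abs_of_pos hpos]
    have h6 := hD.chart e' hA r hr
    rw [h5] at h6
    refine ⟨?_, ?_⟩
    · have h7 : ((‖e' q - R.o e'‖ + t : ℝ) : ℂ) * D r = ((‖e' q - R.o e'‖ + t : ℝ) : ℂ) * v := by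
        rw [← h6, h4]
      exact mul_left_cancel₀ (by exact_mod_cast hpos.ne') h7
    · rw [h5]
      linarith
  | change e' q l e'' a b h he hq ha hab ih =>
    obtain ⟨h1, h2⟩ := ih
    obtain ⟨hA, hq'⟩ := cont_atlas_right h
    obtain ⟨a', ha', htr⟩ := R.tr e' hA e'' he q hq' hq
    have h3 : a = a' := by
      refine lin_unique (b := b) (b' := R.o e'' - (a' : ℂ) * R.o e') hq' ?_
      filter_upwards [hab, htr] with x hx1 hx2
      linear_combination hx2 - hx1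
    have h4 := htr.self_of_nhds
    rw [← h3] at h4
    refine ⟨h1, ?_⟩
    rw [h4, norm_mul, Complex.norm_real, Real.norm_eq_abs, abs_of_pos ha, mul_assoc]
    exact mul_le_mul_of_nonneg_left h2 ha.le

end Pool.Agent.H56.AS
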