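import Pool.Agent.H56.AS.Defs
import Pool.Agent.H56.AS.Basic

/-! A path which is locally straight in the charts runs along the leaf. -/

namespace Pool.Agent.H56.AS

open Set Filter Topology

variable {X : Type*} [TopologicalSpace X]

theorem path_reach_local {A : AffineSurface X} {v : ℂ} {γ : ℝ → X} {a b t : ℝ}
    (hc : ContinuousWithinAt γ (Icc a b) t)
    (hl : ∃ e ∈ A.atlas, γ t ∈ e.source ∧ ∃ α : ℝ, 0 < α ∧ ∃ β : ℂ,
      ∀ᶠ s in 𝓝[Icc a b] t, e (γ s) = β + ((α * s : ℝ) : ℂ) * v) :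
    ∃ δ : ℝ, 0 < δ ∧ ∀ s ∈ Icc a b, ∀ s' ∈ Icc a b, dist s t < δ → dist s' t < δ → s ≤ s' →
      Reach A v (γ s) (γ s') := by
  obtain ⟨e, he, ht, α, hα, β, hev⟩ := hl
  have h1 : e (γ t) ∈ e.target := e.map_source ht
  obtain ⟨ε, hε, hball⟩ := Metric.isOpen_iff.1 e.open_target _ h1
  have h2 : ∀ᶠ s in 𝓝[Icc a b] t, γ s ∈ e.source :=
    hc.eventually (e.open_source.mem_nhds ht)
  have h3 : ContinuousWithinAt (fun s => e (γ s)) (Icc a b) t :=
    (e.continuousAt ht).comp_continuousWithinAt hc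
  have h4 : ∀ᶠ s in 𝓝[Icc a b] t, e (γ s) ∈ Metric.ball (e (γ t)) ε :=
    h3.eventually (Metric.ball_mem_nhds _ hε)
  obtain ⟨δ, hδ, hδ'⟩ := Metric.mem_nhdsWithin_iff.1 (hev.and (h2.and h4))
  refine ⟨δ, hδ, fun s hs s' hs' hd hd' hle => ?_⟩
  obtain ⟨q1, q2, q3⟩ := hδ' ⟨Metric.mem_ball.2 hd, hs⟩
  obtain ⟨r1, r2, r3⟩ := hδ' ⟨Metric.mem_ball.2 hd', hs'⟩
  refine reach_segment he q2 r2 (t := α * (s' - s)) (mul_nonneg hα.le (sub_nonneg.2 hle)) ?_ ?_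
  · rw [q1, r1]
    push_cast
    ring
  · exact ((convex_ball _ _).segment_subset q3 r3).trans hball

theorem path_reach {A : AffineSurface X} {v : ℂ} {γ : ℝ → X} {a b : ℝ} (hab : a ≤ b)
    (hc : ContinuousOn γ (Icc a b))
    (hl : ∀ t ∈ Icc a b, ∃ e ∈ A.atlas, γ t ∈ e.source ∧ ∃ α : ℝ, 0 < α ∧ ∃ β : ℂ,
      ∀ᶠ s in 𝓝[Icc a b] t, e (γ s) = β + ((α * s : ℝ) : ℂ) * v) :
    Reach A v (γ a) (γ b) := by
  choose! δ hδ hR using fun t (ht : t ∈ Icc a b) => path_reach_local (hc t ht) (hl t ht)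
  obtain ⟨t, h0, hm, ⟨m, hmb⟩, hcov⟩ := exists_monotone_Icc_subset_open_cover_Icc hab
    (c := fun i : Icc a b => Metric.ball i (δ i)) (fun i => Metric.isOpen_ball)
    (fun x _ => mem_iUnion.2 ⟨x, Metric.mem_ball_self (hδ x x.2)⟩)
  have haa : a ∈ Icc a b := left_mem_Icc.2 hab
  have key : ∀ n, Reach A v (γ a) (γ (t n)) := by
    intro n
    induction n with
    | zero =>
      rw [h0]
      exact hR a haa a haa a haa (by rw [dist_self]; exact hδ a haa) (by rw [dist_self]; exact hδ a haa) le_rfl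
    | succ n ih =>
      obtain ⟨i, hi⟩ := hcov n
      have hle : t n ≤ t (n + 1) := hm (Nat.le_succ n)
      have e1 := hi (left_mem_Icc.2 hle)
      have e2 := hi (right_mem_Icc.2 hle)
      exact ih.trans (hR i i.2 (t n) (t n).2 (t (n + 1)) (t (n + 1)).2 e1 e2 hle)
  have := key m
  rwa [hmb m le_rfl] at this

end Pool.Agent.H56.AS
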